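import Pool.Agent.W476.TP.Fin
import Pool.Agent.Helper834.EC.Dim1

/-!
# The dimension of the image of a complete intersection
-/

set_option autoImplicit false

namespace Pool.Agent.Helper50R

open MvPolynomial Pool.Agent.W476.TP

theorem ev_monic {r : ℕ} {m : Fin r → ℕ} {K : Type} [Field K] (F : MvPolynomial (Sig m) K)
    (y : Sig m → K) (z : K) :
    ev (Polynomial.X - Polynomial.C F) y z = 0 ↔ z = eval y F := by
  unfold ev
  simp [sub_eq_zero]

theorem monic_MH {r : ℕ} {m : Fin r → ℕ} {K : Type} [Field K] {F : MvPolynomial (Sig m) K}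
    {D : Fin r → ℕ} (hF : MH F D) : MonicMH D (Polynomial.X - Polynomial.C F) 1 := by
  refine ⟨Nat.one_pos, Polynomial.monic_X_sub_C F, Polynomial.natDegree_X_sub_C F, ?_⟩
  intro l hl
  rcases Nat.le_one_iff_eq_zero_or_eq_one.1 hl with rfl | rfl
  · simp only [Polynomial.coeff_sub, Polynomial.coeff_X_zero, Polynomial.coeff_C_zero, zero_sub,
      Nat.sub_zero, one_smul]
    exact IsWeightedHomogeneous.neg hF
  · simp only [Polynomial.coeff_sub, Polynomial.coeff_X_one, Nat.sub_self, zero_smul]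
    rw [Polynomial.coeff_C, if_neg one_ne_zero, sub_zero]
    exact isWeightedHomogeneous_one K (wt m)

theorem krull_ge {K : Type} [Field K] [IsAlgClosed K] {r c n e : ℕ} (m : Fin r → ℕ)
    (g : Fin c → MvPolynomial (Sig m) K) (a : Fin c → Fin r → ℕ) (hg : ∀ j, MH (g j) (a j))
    (f : Fin (n + 1) → MvPolynomial (Sig m) K) (D : Fin r → ℕ) (hf : ∀ i, MH (f i) D)
    (hD : D ≠ 0)
    (hbpf : ∀ y : Sig m → K, Rel y → (∀ j, eval y (g j) = 0) → ∃ i, eval y (f i) ≠ 0)
    (τ : Fin c ⊕ Fin e → Fin r) (hτ1 : ∀ j, 0 < a j (τ (Sum.inl j)))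
    (hτ2 : ∀ k, 0 < D (τ (Sum.inr k)))
    (hτ3 : ∀ κ, (Finset.univ.filter fun x => τ x = κ).card ≤ m κ) :
    ((e + 1 : ℕ) : WithBot ℕ∞) ≤ ringKrullDim (MvPolynomial (Fin (n + 1)) K ⧸ imIdeal g f) := by
  by_contra hlt
  rw [not_le] at hlt
  obtain ⟨l2, hl2⟩ := Pool.Agent.W82.TP.t_DL K n e (imIdeal g f) (imIdeal_hom hg hf hD)
    (dim_aux hlt)
  have hlin : ∀ k, IsWeightedHomogeneous (wt2 m D n)
      (∑ i, MvPolynomial.C (l2 k i) * X (Sum.inr i) : MvPolynomial (Sig m ⊕ Fin (n + 1)) K) D := by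
    intro k
    refine IsWeightedHomogeneous.sum _ _ _ fun i _ => ?_
    have := (isWeightedHomogeneous_C (wt2 m D n) (l2 k i)).mul
      (isWeightedHomogeneous_X K (wt2 m D n) (Sum.inr i))
    rw [zero_add] at this
    exact this
  obtain ⟨y, z, hy, hyG, hyF⟩ := Pool.Agent.W762.TP.t_EXC
    (Pool.Agent.W338.TP.t_KEY Pool.Agent.W476.TP.t_NST) K m D hD
    (fun i => Polynomial.X - Polynomial.C (f i)) (fun _ => 1) (fun i => monic_MH (hf i))
    (Fin c ⊕ Fin e)
    (Sum.elim (fun j => rename Sum.inl (g j)) (fun k => ∑ i, MvPolynomial.C (l2 k i) * X (Sum.inr i)))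
    (Sum.elim a (fun _ => D)) (by
      rintro (j | k)
      · exact rename_hom (hg j) D n
      · exact hlin k) τ (by
      rintro (j | k)
      · exact hτ1 j
      · exact hτ2 k) hτ3
  have hyH : ∀ j, eval y (g j) = 0 := by
    intro j
    have := hyF (Sum.inl j)
    rw [Sum.elim_inl, eval_rename, Sum.elim_comp_inl] at this
    exact this
  have hyz : ∀ i, z i = eval y (f i) := fun i => (ev_monic (f i) y (z i)).1 (hyG i)
  obtain ⟨i, hi⟩ := hbpf y hy hyH
  apply hi
  rw [← hyz i]
  have hz : z = 0 := by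
    refine hl2 z ?_ fun k => ?_
    · intro P hP
      have h1 := hP y hy hyH
      have h2 : z = fun i => eval y (f i) := funext hyz
      rw [h2]
      exact h1
    · have := hyF (Sum.inr k)
      rw [Sum.elim_inr] at this
      simpa using this
  rw [hz, Pi.zero_apply]

section upper

variable {K L : Type} [Field K] [Field L] [Algebra K L] {n : ℕ}

/-- The generic point of the cone over the curve with the coordinates `f`. -/
noncomputable def Phi (f : Fin (n + 1) → L) : MvPolynomial (Fin (n + 1)) K →ₐ[K] Polynomial L :=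
  aeval fun i => Polynomial.C (f i) * Polynomial.X

theorem Phi_hom (f : Fin (n + 1) → L) {P : MvPolynomial (Fin (n + 1)) K} {k : ℕ}
    (hP : P.IsHomogeneous k) : Phi f P = Polynomial.C (aeval f P) * Polynomial.X ^ k := by
  unfold Phi
  rw [aeval_def, aeval_def, eval₂_eq', eval₂_eq', map_sum, Finset.sum_mul]
  refine Finset.sum_congr rfl fun d hd => ?_
  have h1 := hP (mem_support_iff.1 hd)
  have h2 : ∑ i, d i = k := by
    rw [← h1, Finsupp.weight_apply, Finsupp.sum_fintype _ _ (fun i => by exact zero_smul ℕ _)]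
    simp
  have h3 : ∏ i, (Polynomial.C (f i) * Polynomial.X) ^ d i =
      Polynomial.C (∏ i, f i ^ d i) * Polynomial.X ^ k := by
    simp_rw [mul_pow]
    rw [Finset.prod_mul_distrib, Finset.prod_pow_eq_pow_sum, h2, map_prod]
    simp_rw [map_pow]
  rw [h3, map_mul]
  have h4 : (algebraMap K (Polynomial L)) (coeff d P) =
      Polynomial.C ((algebraMap K L) (coeff d P)) := rfl
  rw [h4]
  ring

theorem ker_Phi_comp (f : Fin (n + 1) → L) {P : MvPolynomial (Fin (n + 1)) K} (hP : Phi f P = 0)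
    (k : ℕ) : aeval f (homogeneousComponent k P) = 0 := by
  have h1 : Phi f P = ∑ l ∈ Finset.range (P.totalDegree + 1),
      Polynomial.C (aeval f (homogeneousComponent l P)) * Polynomial.X ^ l := by
    conv_lhs => rw [← sum_homogeneousComponent P]
    rw [map_sum]
    exact Finset.sum_congr rfl fun l _ => Phi_hom f (homogeneousComponent_isHomogeneous l P)
  by_cases hk : k ∈ Finset.range (P.totalDegree + 1)
  · rw [hP] at h1
    have h2 := congrArg (fun q => Polynomial.coeff q k) h1
    simp only [Polynomial.coeff_zero, Polynomial.finsetSum_coeff, Polynomial.coeff_C_mul,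
      Polynomial.coeff_X_pow, mul_ite, mul_one, mul_zero] at h2
    rw [Finset.sum_ite_eq, if_pos hk] at h2
    exact h2.symm
  · have h3 : homogeneousComponent k P = 0 := by
      apply homogeneousComponent_eq_zero
      have := Finset.mem_range.not.1 hk
      omega
    rw [h3, map_zero]

theorem krull_le_two (htr : Algebra.trdeg K L ≤ 1) (f : Fin (n + 1) → L) :
    ringKrullDim (MvPolynomial (Fin (n + 1)) K ⧸ RingHom.ker (Phi (K := K) f)) ≤
      ((1 + 1 : ℕ) : WithBot ℕ∞) := by
  have hprime : (RingHom.ker (Phi (K := K) f)).IsPrime := RingHom.ker_isPrime _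
  have hdom : IsDomain (MvPolynomial (Fin (n + 1)) K ⧸ RingHom.ker (Phi (K := K) f)) :=
    Ideal.Quotient.isDomain _
  obtain ⟨s, h1, h2⟩ := Pool.Agent.Helper834.EC.exists_ringKrullDim_eq_trdeg K
    (MvPolynomial (Fin (n + 1)) K ⧸ RingHom.ker (Phi (K := K) f))
  rw [h1]
  have h3 : Algebra.trdeg K (MvPolynomial (Fin (n + 1)) K ⧸ RingHom.ker (Phi (K := K) f)) ≤
      Algebra.trdeg K (Polynomial L) :=
    trdeg_le_of_injective (Ideal.kerLiftAlg (Phi (K := K) f))
      (Ideal.kerLiftAlg_injective _)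
  have h4 : Algebra.trdeg K L + Algebra.trdeg L (Polynomial L) = Algebra.trdeg K (Polynomial L) :=
    trdeg_add_eq K L
  rw [Polynomial.trdeg_of_isDomain] at h4
  have h5 : (s : Cardinal) ≤ ((1 + 1 : ℕ) : Cardinal) := by
    rw [← h2]
    refine h3.trans ?_
    rw [← h4, Nat.cast_add, Nat.cast_one]
    exact add_le_add htr le_rfl
  have h6 : s ≤ 1 + 1 := by exact_mod_cast h5
  exact_mod_cast h6

theorem krull_le {f : Fin (n + 1) → L} (htr : Algebra.trdeg K L ≤ 1)
    {I : Ideal (MvPolynomial (Fin (n + 1)) K)}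
    (hI : ∀ (P : MvPolynomial (Fin (n + 1)) K) (k : ℕ), P.IsHomogeneous k → aeval f P = 0 → P ∈ I) :
    ringKrullDim (MvPolynomial (Fin (n + 1)) K ⧸ I) ≤ ((1 + 1 : ℕ) : WithBot ℕ∞) := by
  refine le_trans ?_ (krull_le_two htr f)
  have hle : RingHom.ker (Phi (K := K) f) ≤ I := by
    intro P hP
    rw [← sum_homogeneousComponent P]
    refine Ideal.sum_mem _ fun k _ => ?_
    exact hI _ k (homogeneousComponent_isHomogeneous k P) (ker_Phi_comp f hP k)
  exact ringKrullDim_le_of_surjective (Ideal.Quotient.factor hle)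
    (Ideal.Quotient.factor_surjective hle)

end upper

end Pool.Agent.Helper50R
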