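import Pool.Agent.Helper50R.Chart2

/-!
# The two charts of the base
-/

set_option autoImplicit false

namespace Pool.Agent.Helper50R

open Polynomial

section hom

variable {K L : Type} [Field K] [Field L] [Algebra K L] {n : ℕ}

/-- The value at `(x₀, x₁)` of the binary form of degree `m` with the coefficients of `p`. -/
noncomputable def Hm (m : ℕ) (p : K[X]) (x₀ x₁ : K) : K :=
  ∑ j ∈ Finset.range (m + 1), p.coeff j * x₀ ^ (m - j) * x₁ ^ j

theorem Hm_eq {m : ℕ} {p : K[X]} (hp : p.natDegree ≤ m) {x₀ x₁ : K} (h0 : x₀ ≠ 0) :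
    Hm m p x₀ x₁ = x₀ ^ m * p.eval (x₁ / x₀) := by
  unfold Hm
  rw [eval_eq_sum_range' (Nat.lt_succ_of_le hp), Finset.mul_sum]
  refine Finset.sum_congr rfl fun i hi => ?_
  have hi' : i ≤ m := by
    have := Finset.mem_range.1 hi
    omega
  have e : x₀ ^ m = x₀ ^ (m - i) * x₀ ^ i := by
    rw [← pow_add]
    congr 1
    omega
  rw [e, div_pow]
  field_simp

theorem Hm_reflect (m : ℕ) (p : K[X]) (x₀ x₁ : K) :
    Hm m p x₀ x₁ = Hm m (p.reflect m) x₁ x₀ := by
  unfold Hm
  rw [← Finset.sum_range_reflect]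
  refine Finset.sum_congr rfl fun i hi => ?_
  have hi' : i ≤ m := by
    have := Finset.mem_range.1 hi
    omega
  have e1 : m + 1 - 1 - i = m - i := by omega
  rw [e1, coeff_reflect, revAt_le hi', Nat.sub_sub_self hi']
  ring

theorem natDegree_reflect_le' {p : K[X]} {m : ℕ} (hp : p.natDegree ≤ m) :
    (p.reflect m).natDegree ≤ m := by
  rw [natDegree_le_iff_coeff_eq_zero]
  intro j hj
  rw [coeff_reflect, revAt_eq_self_of_lt hj]
  exact coeff_eq_zero_of_natDegree_lt (lt_of_le_of_lt hp hj)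

theorem Hm_eq' {m : ℕ} {p : K[X]} (hp : p.natDegree ≤ m) {x₀ x₁ : K} (h1 : x₁ ≠ 0) :
    Hm m p x₀ x₁ = x₁ ^ m * (p.reflect m).eval (x₀ / x₁) := by
  rw [Hm_reflect, Hm_eq (natDegree_reflect_le' hp) h1]

theorem Min.infty {x w : L} (hx : x ≠ 0) {δ : ℕ} (h : Min (phi K x) w δ) (e : ℕ) :
    Min (phi K x⁻¹) (x ^ e * w) δ := by
  classical
  intro g hg hev
  set d := g.natDegree with hd
  obtain ⟨N, hN⟩ : ∃ N : ℕ, ∀ i ≤ d, (g.coeff i).natDegree ≤ N :=
    ⟨(Finset.range (d + 1)).sup fun i => (g.coeff i).natDegree, fun i hi =>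
      Finset.le_sup (f := fun i => (g.coeff i).natDegree) (Finset.mem_range.2 (by omega))⟩
  set G : K[X][X] := mk (d + 1) fun i => X ^ (i * e) * (g.coeff i).reflect N with hG
  have hev' : ev (phi K x) w G = 0 := by
    rw [hG, ev_mk]
    have h1 : ev (phi K x⁻¹) (x ^ e * w) g * x ^ N = 0 := by rw [hev, zero_mul]
    rw [ev_eq_sum _ _ _ d le_rfl, Finset.sum_mul] at h1
    rw [← h1]
    refine Finset.sum_congr rfl fun i hi => ?_
    have hi' : i ≤ d := by
      have := Finset.mem_range.1 hi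
      omega
    have h2 := phi_reflect (K := K) (inv_ne_zero hx) (hN i hi')
    rw [inv_inv] at h2
    rw [map_mul, map_pow, ← h2, phi_apply x X, aeval_X, mul_pow, ← pow_mul]
    have h3 : (x⁻¹) ^ N * x ^ N = 1 := by
      rw [← mul_pow, inv_mul_cancel₀ hx, one_pow]
    calc _ = x ^ (i * e) * phi K x ((g.coeff i).reflect N) * w ^ i * 1 := by ring
      _ = x ^ (i * e) * phi K x ((g.coeff i).reflect N) * w ^ i * ((x⁻¹) ^ N * x ^ N) := by rw [h3]
      _ = _ := by ring
  have hG0 : G ≠ 0 := by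
    intro h0
    have h1 : G.coeff d = 0 := by rw [h0, coeff_zero]
    rw [hG, coeff_mk, if_pos (by omega)] at h1
    rcases mul_eq_zero.1 h1 with h2 | h2
    · exact pow_ne_zero _ X_ne_zero h2
    · rw [reflect_eq_zero_iff, hd, coeff_natDegree, leadingCoeff_eq_zero] at h2
      exact hg h2
  exact (h G hG0 hev').trans (natDegree_mk_le _ _)

theorem point [IsAlgClosed K] {x : L} (hx : Transcendental K x) {f : Fin (n + 1) → L}
    {u v : L} (hu : u ≠ 0) (hv : v ≠ 0) {A B : Fin (n + 1) → K[X]}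
    (hf : ∀ i, f i = phi K x (A i) * u + phi K x (B i) * v) {a e : ℕ}
    (hA : ∀ i, (A i).natDegree ≤ a) (hB : ∀ i, (B i).natDegree ≤ a + e)
    {h : K[X][X]} {δ c' : ℕ}
    (hev : ev (phi K x) (v / u) h = 0) (hδ : h.natDegree ≤ δ) (hmin : Min (phi K x) (v / u) δ)
    (hp : Prim h) (hb : ∀ i, (h.coeff i).natDegree ≤ c' + i * e)
    (htop : ∃ i ≤ δ, (h.coeff i).coeff (c' + i * e) ≠ 0)
    {P : MvPolynomial (Fin (n + 1)) K} {k : ℕ} (hP : P.IsHomogeneous k)
    (hPf : MvPolynomial.aeval f P = 0) (x₀ x₁ s₀ s₁ : K) (hxx : x₀ ≠ 0 ∨ x₁ ≠ 0)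
    (hs : s₀ ≠ 0 ∨ s₁ ≠ 0)
    (hcs : ∑ i ∈ Finset.range (δ + 1), Hm (c' + i * e) (h.coeff i) x₀ x₁ *
      s₀ ^ (δ - i) * s₁ ^ i = 0) :
    MvPolynomial.eval (fun i => Hm a (A i) x₀ x₁ * s₀ + Hm (a + e) (B i) x₀ x₁ * s₁) P = 0 := by
  have hx0 : x ≠ 0 := by
    rintro rfl
    exact hx isAlgebraic_zero
  by_cases h0 : x₀ = 0
  · have h1 : x₁ ≠ 0 := hxx.resolve_left (not_not.2 h0)
    set h' : K[X][X] := mk (δ + 1) fun i => (h.coeff i).reflect (c' + i * e) with hh'
    have hco : ∀ i ≤ δ, h'.coeff i = (h.coeff i).reflect (c' + i * e) := by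
      intro i hi
      rw [hh', coeff_mk, if_pos (by omega)]
    have hx' : Transcendental K x⁻¹ := fun h => hx (by
      have := h.inv
      rwa [inv_inv] at this)
    have hev' : ev (phi K x⁻¹) ((x ^ (a + e) * v) / (x ^ a * u)) h' = 0 := by
      have e1 : (x ^ (a + e) * v) / (x ^ a * u) = x ^ e * (v / u) := by
        field_simp
        ring
      rw [e1]
      have h2 : x ^ c' * ev (phi K x⁻¹) (x ^ e * (v / u)) h' = 0 := by
        rw [hh', ev_mk, ← hev, ev_eq_sum _ _ _ δ hδ, Finset.mul_sum]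
        refine Finset.sum_congr rfl fun i _ => ?_
        rw [← phi_reflect hx0 (hb i), pow_add, pow_mul', mul_pow]
        ring
      exact (mul_eq_zero.1 h2).resolve_left (pow_ne_zero _ hx0)
    have hmin' : Min (phi K x⁻¹) ((x ^ (a + e) * v) / (x ^ a * u)) δ := by
      have e1 : (x ^ (a + e) * v) / (x ^ a * u) = x ^ e * (v / u) := by
        field_simp
        ring
      rw [e1]
      exact hmin.infty hx0 e
    have hp' : Prim h' := by
      intro c
      by_cases hc : c = 0
      · obtain ⟨i, hi, hi2⟩ := htop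
        refine ⟨i, ?_⟩
        rw [hco i hi, hc, ← coeff_zero_eq_eval_zero, coeff_reflect, revAt_le (Nat.zero_le _),
          Nat.sub_zero]
        exact hi2
      · obtain ⟨i, hi⟩ := hp c⁻¹
        have hi' : i ≤ δ := by
          by_contra hlt
          apply hi
          rw [coeff_eq_zero_of_natDegree_lt (by omega), eval_zero]
        refine ⟨i, ?_⟩
        rw [hco i hi']
        intro h3
        apply hi
        have h4 := phi_reflect (K := K) (L := K) (inv_ne_zero hc) (hb i)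
        rw [inv_inv, phi_apply, phi_apply, aeval_def, aeval_def, Algebra.algebraMap_self,
          eval₂_id, eval₂_id, h3, zero_mul] at h4
        exact h4.symm
    have h5 := chart2 hx' (f := f) (t := 1) (mul_ne_zero (pow_ne_zero a hx0) hu)
      (mul_ne_zero (pow_ne_zero (a + e) hx0) hv) (A := fun i => (A i).reflect a)
      (B := fun i => (B i).reflect (a + e)) (fun i => by
        rw [one_mul, hf i, ← phi_reflect hx0 (hA i), ← phi_reflect hx0 (hB i)]
        ring) hev' (natDegree_mk_le _ _) hmin' hp' hP hPf (x₀ / x₁) s₀ (x₁ ^ e * s₁) (by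
        rcases hs with hs | hs
        · exact Or.inl hs
        · exact Or.inr (mul_ne_zero (pow_ne_zero _ h1) hs)) (by
        have h6 : x₁ ^ c' * ∑ i ∈ Finset.range (δ + 1), (h'.coeff i).eval (x₀ / x₁) *
            s₀ ^ (δ - i) * (x₁ ^ e * s₁) ^ i = 0 := by
          rw [← hcs, Finset.mul_sum]
          refine Finset.sum_congr rfl fun i hi => ?_
          have hi' : i ≤ δ := by
            have := Finset.mem_range.1 hi
            omega
          rw [hco i hi', Hm_eq' (hb i) h1, mul_pow, pow_add, pow_mul']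
          ring
        exact (mul_eq_zero.1 h6).resolve_left (pow_ne_zero _ h1))
    have h8 := eval_smul hP (x₁ ^ a) fun i => ((A i).reflect a).eval (x₀ / x₁) * s₀ +
      ((B i).reflect (a + e)).eval (x₀ / x₁) * (x₁ ^ e * s₁)
    rw [h5, mul_zero] at h8
    rw [← h8]
    congr 2
    funext i
    rw [Hm_eq' (hA i) h1, Hm_eq' (hB i) h1, pow_add]
    ring
  · have h5 := chart2 hx (f := f) (t := 1) hu hv (fun i => by rw [one_mul, hf i]) hev hδ hmin hp
      hP hPf (x₁ / x₀) s₀ (x₀ ^ e * s₁) (by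
        rcases hs with hs | hs
        · exact Or.inl hs
        · exact Or.inr (mul_ne_zero (pow_ne_zero _ h0) hs)) (by
        have h6 : x₀ ^ c' * ∑ i ∈ Finset.range (δ + 1), (h.coeff i).eval (x₁ / x₀) *
            s₀ ^ (δ - i) * (x₀ ^ e * s₁) ^ i = 0 := by
          rw [← hcs, Finset.mul_sum]
          refine Finset.sum_congr rfl fun i hi => ?_
          rw [Hm_eq (hb i) h0, mul_pow, pow_add, pow_mul']
          ring
        exact (mul_eq_zero.1 h6).resolve_left (pow_ne_zero _ h0))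
    have h8 := eval_smul hP (x₀ ^ a) fun i => (A i).eval (x₁ / x₀) * s₀ +
      (B i).eval (x₁ / x₀) * (x₀ ^ e * s₁)
    rw [h5, mul_zero] at h8
    rw [← h8]
    congr 2
    funext i
    rw [Hm_eq (hA i) h0, Hm_eq (hB i) h0, pow_add]
    ring

end hom

end Pool.Agent.Helper50R
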