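import Pool.Agent.Helper50R.Rep
import Pool.Agent.Helper50R.Chart3

/-!
# Reduced representations of rank one
-/

set_option autoImplicit false

namespace Pool.Agent.Helper50R

open Polynomial

section line

variable {K L : Type} [Field K] [Field L] [Algebra K L] {n : ℕ}

theorem exists_reduced_one [IsAlgClosed K] {x : L} {f : Fin (n + 1) → L}
    (hf : ∃ i, f i ≠ 0) :
    ∀ (N : ℕ) (A : Fin (n + 1) → K[X]) (u : L), (∀ i, (A i).natDegree ≤ N) →
      (∀ i, f i = phi K x (A i) * u) →
      ∃ (a : ℕ) (A' : Fin (n + 1) → K[X]) (u' : L), (∀ i, f i = phi K x (A' i) * u') ∧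
        (∀ i, (A' i).natDegree ≤ a) ∧ (∀ c : K, ∃ i, (A' i).eval c ≠ 0) ∧
        ∃ i, (A' i).coeff a ≠ 0 := by
  intro N
  induction N with
  | zero =>
    intro A u hN hR
    obtain ⟨i, hi⟩ := hf
    have h1 : A i ≠ 0 := by
      intro h
      rw [hR i, h, map_zero, zero_mul] at hi
      exact hi rfl
    have h2 : (A i).coeff 0 ≠ 0 := by
      intro h
      apply h1
      rw [eq_C_of_natDegree_le_zero (hN i), h, C_0]
    refine ⟨0, A, u, hR, hN, fun c => ⟨i, ?_⟩, ⟨i, h2⟩⟩
    rw [eq_C_of_natDegree_le_zero (hN i), eval_C]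
    exact h2
  | succ N ih =>
    intro A u hN hR
    by_cases h1 : ∀ c : K, ∃ i, (A i).eval c ≠ 0
    · by_cases h2 : ∃ i, (A i).coeff (N + 1) ≠ 0
      · exact ⟨N + 1, A, u, hR, hN, h1, h2⟩
      · push Not at h2
        refine ih A u (fun i => ?_) hR
        by_cases h3 : A i = 0
        · rw [h3, natDegree_zero]
          exact Nat.zero_le _
        · have h4 : (A i).natDegree ≠ N + 1 := by
            intro h5
            apply h3
            rw [← leadingCoeff_eq_zero, leadingCoeff, h5, h2 i]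
          have := hN i
          omega
    · push Not at h1
      obtain ⟨c, hc⟩ := h1
      choose Q hQ using fun i => exists_div (hc i)
      refine ih Q (phi K x (X - C c) * u) (fun i => natDegree_div (hQ i) (hN i)) fun i => ?_
      rw [hR i, hQ i, map_mul]
      ring

theorem eval_comp_zero {x : L} (hx : Transcendental K x) {f : Fin (n + 1) → L}
    {A : Fin (n + 1) → K[X]} {u : L} (hu : u ≠ 0) (hR : ∀ i, f i = phi K x (A i) * u)
    {P : MvPolynomial (Fin (n + 1)) K} {k : ℕ} (hP : P.IsHomogeneous k)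
    (hPf : MvPolynomial.aeval f P = 0) (c : K) :
    MvPolynomial.eval (fun i => (A i).eval c) P = 0 := by
  have h1 : f = fun i => u * phi K x (A i) := by
    funext i
    rw [hR i, mul_comm]
  rw [h1, aeval_smul hP] at hPf
  have h2 : MvPolynomial.aeval (fun i => phi K x (A i)) P = 0 :=
    (mul_eq_zero.1 hPf).resolve_left (pow_ne_zero _ hu)
  have h3 : phi K x (MvPolynomial.aeval A P) = 0 := by
    rw [← h2]
    have := (MvPolynomial.comp_aeval A (aeval x : K[X] →ₐ[K] L))
    have h4 := congrArg (fun g : MvPolynomial (Fin (n + 1)) K →ₐ[K] L => g P) this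
    exact h4
  have h5 : MvPolynomial.aeval A P = 0 := phi_inj hx (by rw [h3, map_zero])
  have h6 := congrArg (fun q : K[X] => q.eval c) h5
  simp only [eval_zero] at h6
  rw [← h6]
  have := (MvPolynomial.comp_aeval A (aeval c : K[X] →ₐ[K] K))
  have h4 := congrArg (fun g : MvPolynomial (Fin (n + 1)) K →ₐ[K] K => g P) this
  simp only [AlgHom.comp_apply, coe_aeval_eq_eval] at h4
  rw [h4, MvPolynomial.aeval_eq_eval]

/-- The points of the line, both charts. -/
theorem point_one {x : L} (hx : Transcendental K x) {f : Fin (n + 1) → L}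
    {A : Fin (n + 1) → K[X]} {u : L} (hu : u ≠ 0) (hR : ∀ i, f i = phi K x (A i) * u) {a : ℕ}
    (hA : ∀ i, (A i).natDegree ≤ a)
    {P : MvPolynomial (Fin (n + 1)) K} {k : ℕ} (hP : P.IsHomogeneous k)
    (hPf : MvPolynomial.aeval f P = 0) (x₀ x₁ : K) (hxx : x₀ ≠ 0 ∨ x₁ ≠ 0) :
    MvPolynomial.eval (fun i => Hm a (A i) x₀ x₁) P = 0 := by
  have hx0 : x ≠ 0 := by
    rintro rfl
    exact hx isAlgebraic_zero
  by_cases h0 : x₀ = 0
  · have h1 : x₁ ≠ 0 := hxx.resolve_left (not_not.2 h0)
    have hx' : Transcendental K x⁻¹ := fun h => hx (by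
      have := h.inv
      rwa [inv_inv] at this)
    have h5 := eval_comp_zero hx' (A := fun i => (A i).reflect a)
      (u := x ^ a * u) (mul_ne_zero (pow_ne_zero _ hx0) hu) (f := f) (fun i => by
        rw [hR i, ← phi_reflect hx0 (hA i)]
        ring) hP hPf (x₀ / x₁)
    have h8 := eval_smul hP (x₁ ^ a) fun i => ((A i).reflect a).eval (x₀ / x₁)
    rw [h5, mul_zero] at h8
    rw [← h8]
    congr 2
    funext i
    rw [Hm_eq' (hA i) h1]
  · have h5 := eval_comp_zero hx hu hR hP hPf (x₁ / x₀)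
    have h8 := eval_smul hP (x₀ ^ a) fun i => (A i).eval (x₁ / x₀)
    rw [h5, mul_zero] at h8
    rw [← h8]
    congr 2
    funext i
    rw [Hm_eq (hA i) h0]

theorem Hm_zero (m : ℕ) (p : K[X]) (x₁ : K) : Hm m p 0 x₁ = p.coeff m * x₁ ^ m := by
  unfold Hm
  rw [Finset.sum_eq_single_of_mem m (by simp)]
  · simp
  · intro j hj hne
    have := Finset.mem_range.1 hj
    rw [zero_pow (by omega), mul_zero, zero_mul]

end line

end Pool.Agent.Helper50R
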