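import Pool.Agent.Helper50R.Chart3
import Pool.Agent.W476.TP.Stm

/-!
# The complete intersection in the product of a line and a projective space
-/

set_option autoImplicit false

namespace Pool.Agent.Helper50R

open MvPolynomial Pool.Agent.W476.TP

section sys

/-- The dimensions of the two factors. -/
def mm (e : ℕ) : Fin 2 → ℕ := ![1, e + 1]

variable {K : Type} [Field K] {e : ℕ}

/-- `x₀` -/
def ix0 (e : ℕ) : Sig (mm e) := ⟨0, ⟨0, Nat.succ_pos _⟩⟩

/-- `x₁` -/
def ix1 (e : ℕ) : Sig (mm e) := ⟨0, ⟨1, by change 1 < 1 + 1; omega⟩⟩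

/-- `s₀` -/
def is0 (e : ℕ) : Sig (mm e) := ⟨1, ⟨0, Nat.succ_pos _⟩⟩

/-- `Z_l` -/
def iz (e l : ℕ) : Sig (mm e) := ⟨1, ⟨min l e + 1, by change min l e + 1 < e + 1 + 1; omega⟩⟩

theorem single_zero : (Pi.single 0 1 : Fin 2 → ℕ) = ![1, 0] := by
  funext i
  fin_cases i <;> rfl

theorem single_one : (Pi.single 1 1 : Fin 2 → ℕ) = ![0, 1] := by
  funext i
  fin_cases i <;> rfl

theorem hX0 : MH (X (ix0 e) : MvPolynomial (Sig (mm e)) K) ![1, 0] := by
  rw [← single_zero]
  exact isWeightedHomogeneous_X K (wt (mm e)) (ix0 e)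

theorem hX1 : MH (X (ix1 e) : MvPolynomial (Sig (mm e)) K) ![1, 0] := by
  rw [← single_zero]
  exact isWeightedHomogeneous_X K (wt (mm e)) (ix1 e)

theorem hS0 : MH (X (is0 e) : MvPolynomial (Sig (mm e)) K) ![0, 1] := by
  rw [← single_one]
  exact isWeightedHomogeneous_X K (wt (mm e)) (is0 e)

theorem hZ (l : ℕ) : MH (X (iz e l) : MvPolynomial (Sig (mm e)) K) ![0, 1] := by
  rw [← single_one]
  exact isWeightedHomogeneous_X K (wt (mm e)) (iz e l)

theorem MH_mul {F G : MvPolynomial (Sig (mm e)) K} {a b c d : ℕ} (hF : MH F ![a, b])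
    (hG : MH G ![c, d]) : MH (F * G) ![a + c, b + d] := by
  have h := IsWeightedHomogeneous.mul hF hG
  have e1 : (![a, b] + ![c, d] : Fin 2 → ℕ) = ![a + c, b + d] := by
    funext i
    fin_cases i <;> rfl
  rwa [e1] at h

theorem MH_pow {F : MvPolynomial (Sig (mm e)) K} {a b : ℕ} (hF : MH F ![a, b]) (k : ℕ) :
    MH (F ^ k) ![k * a, k * b] := by
  have h := IsWeightedHomogeneous.pow hF k
  have e1 : (k • ![a, b] : Fin 2 → ℕ) = ![k * a, k * b] := by
    funext i
    fin_cases i <;> rfl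
  rwa [e1] at h

theorem MH_C_mul' {F : MvPolynomial (Sig (mm e)) K} {d : Fin 2 → ℕ} (hF : MH F d) (c : K) :
    MH (C c * F) d := by
  have h := (isWeightedHomogeneous_C (wt (mm e)) c).mul hF
  rwa [zero_add] at h

theorem MH_sum {ι : Type} (s : Finset ι) (F : ι → MvPolynomial (Sig (mm e)) K) (d : Fin 2 → ℕ)
    (h : ∀ i ∈ s, MH (F i) d) : MH (∑ i ∈ s, F i) d :=
  IsWeightedHomogeneous.sum s F d h

/-- The monomial which restricts to `x₀ ^ (c + i e - j) x₁ ^ j s₁ ^ i`. -/
noncomputable def mono (K : Type) [Field K] (e c : ℕ) : ℕ → ℕ → MvPolynomial (Sig (mm e)) K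
  | 0, j => X (ix0 e) ^ (c - j) * X (ix1 e) ^ j
  | i + 1, j => X (iz e (min j e)) * mono K e c i (j - min j e)

theorem mono_hom (c : ℕ) : ∀ i j : ℕ, j ≤ c + i * e → MH (mono K e c i j) ![c, i] := by
  intro i
  induction i with
  | zero =>
    intro j hj
    have h := MH_mul (MH_pow (hX0 (K := K) (e := e)) (c - j)) (MH_pow (hX1 (K := K) (e := e)) j)
    have e1 : (c - j) * 1 + j * 1 = c := by omega
    have e2 : (c - j) * 0 + j * 0 = 0 := by omega
    rw [e1, e2] at h
    exact h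
  | succ i ih =>
    intro j hj
    have h1 : j - min j e ≤ c + i * e := by
      have : (i + 1) * e = i * e + e := by ring
      omega
    have h := MH_mul (hZ (K := K) (e := e) (min j e)) (ih _ h1)
    rw [zero_add, add_comm 1 i] at h
    exact h

/-- The point `y` is on the scroll. -/
def OnScroll (y : Sig (mm e) → K) (s : K) : Prop :=
  ∀ l ≤ e, y (iz e l) = y (ix0 e) ^ (e - l) * y (ix1 e) ^ l * s

theorem eval_mono {y : Sig (mm e) → K} {s : K} (hy : OnScroll y s) (c : ℕ) :
    ∀ i j : ℕ, j ≤ c + i * e →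
      eval y (mono K e c i j) = y (ix0 e) ^ (c + i * e - j) * y (ix1 e) ^ j * s ^ i := by
  intro i
  induction i with
  | zero =>
    intro j hj
    rw [mono, map_mul, map_pow, map_pow, eval_X, eval_X]
    simp
  | succ i ih =>
    intro j hj
    have e0 : (i + 1) * e = i * e + e := by ring
    have h1 : j - min j e ≤ c + i * e := by omega
    rw [mono, map_mul, eval_X, ih _ h1, hy _ (min_le_right _ _)]
    have e1 : e - min j e + (c + i * e - (j - min j e)) = c + (i + 1) * e - j := by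
      rw [e0]
      omega
    have e2 : y (ix1 e) ^ j = y (ix1 e) ^ min j e * y (ix1 e) ^ (j - min j e) := by
      rw [← pow_add]
      congr 1
      omega
    rw [← e1, pow_add, e2, pow_succ]
    ring

/-- The form which restricts to the binary form of `p` times `s₁ ^ i`. -/
noncomputable def Psi (e c i : ℕ) (p : Polynomial K) : MvPolynomial (Sig (mm e)) K :=
  ∑ j ∈ Finset.range (c + i * e + 1), C (p.coeff j) * mono K e c i j

theorem Psi_hom (c i : ℕ) (p : Polynomial K) : MH (Psi e c i p) ![c, i] := by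
  refine MH_sum _ _ _ fun j hj => MH_C_mul' (mono_hom c i j ?_) _
  have := Finset.mem_range.1 hj
  omega

theorem eval_Psi {y : Sig (mm e) → K} {s : K} (hy : OnScroll y s) (c i : ℕ) (p : Polynomial K) :
    eval y (Psi e c i p) = Hm (c + i * e) p (y (ix0 e)) (y (ix1 e)) * s ^ i := by
  unfold Psi Hm
  rw [map_sum, Finset.sum_mul]
  refine Finset.sum_congr rfl fun j hj => ?_
  rw [map_mul, eval_C, eval_mono hy c i j (by
    have := Finset.mem_range.1 hj
    omega)]
  ring

/-- The equation of the curve. -/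
noncomputable def Hpoly (e c δ : ℕ) (h : Polynomial (Polynomial K)) :
    MvPolynomial (Sig (mm e)) K :=
  ∑ i ∈ Finset.range (δ + 1), X (is0 e) ^ (δ - i) * Psi e c i (h.coeff i)

theorem Hpoly_hom (c δ : ℕ) (h : Polynomial (Polynomial K)) : MH (Hpoly e c δ h) ![c, δ] := by
  refine MH_sum _ _ _ fun i hi => ?_
  have h1 := MH_mul (MH_pow (hS0 (K := K) (e := e)) (δ - i)) (Psi_hom c i (h.coeff i))
  have hi' := Finset.mem_range.1 hi
  have e1 : (δ - i) * 0 + c = c := by omega
  have e2 : (δ - i) * 1 + i = δ := by omega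
  rw [e1, e2] at h1
  exact h1

theorem eval_Hpoly {y : Sig (mm e) → K} {s : K} (hy : OnScroll y s) (c δ : ℕ)
    (h : Polynomial (Polynomial K)) :
    eval y (Hpoly e c δ h) = ∑ i ∈ Finset.range (δ + 1),
      Hm (c + i * e) (h.coeff i) (y (ix0 e)) (y (ix1 e)) * y (is0 e) ^ (δ - i) * s ^ i := by
  unfold Hpoly
  rw [map_sum]
  refine Finset.sum_congr rfl fun i _ => ?_
  rw [map_mul, map_pow, eval_X, eval_Psi hy]
  ring

/-- The forms of the map. -/
noncomputable def Fpoly (e a : ℕ) (A B : Polynomial K) : MvPolynomial (Sig (mm e)) K :=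
  Psi e a 0 A * X (is0 e) + Psi e a 1 B

theorem Fpoly_hom (a : ℕ) (A B : Polynomial K) : MH (Fpoly e a A B) ![a, 1] := by
  have h1 := MH_mul (Psi_hom (e := e) a 0 A) hS0
  rw [add_zero, zero_add] at h1
  exact h1.add (Psi_hom a 1 B)

theorem eval_Fpoly {y : Sig (mm e) → K} {s : K} (hy : OnScroll y s) (a : ℕ)
    (A B : Polynomial K) :
    eval y (Fpoly e a A B) = Hm a A (y (ix0 e)) (y (ix1 e)) * y (is0 e) +
      Hm (a + e) B (y (ix0 e)) (y (ix1 e)) * s := by
  unfold Fpoly
  rw [map_add, map_mul, eval_X, eval_Psi hy, eval_Psi hy, zero_mul, add_zero, pow_zero, mul_one,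
    one_mul, pow_one]

/-- The equations of the scroll. -/
noncomputable def eqn (K : Type) [Field K] (e l : ℕ) : MvPolynomial (Sig (mm e)) K :=
  X (ix0 e) * X (iz e (l + 1)) - X (ix1 e) * X (iz e l)

theorem eqn_hom (l : ℕ) : MH (eqn K e l) ![1, 1] := by
  have h1 := MH_mul (hX0 (K := K) (e := e)) (hZ (l + 1))
  have h2 := MH_mul (hX1 (K := K) (e := e)) (hZ l)
  exact h1.sub h2

theorem exists_scroll {y : Sig (mm e) → K} (hx : y (ix0 e) ≠ 0 ∨ y (ix1 e) ≠ 0)
    (hy : ∀ l < e, eval y (eqn K e l) = 0) : ∃ s, OnScroll y s := by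
  have hy' : ∀ l < e, y (ix0 e) * y (iz e (l + 1)) = y (ix1 e) * y (iz e l) := by
    intro l hl
    have h := hy l hl
    rw [eqn, map_sub, map_mul, map_mul, eval_X, eval_X, eval_X, eval_X] at h
    linear_combination h
  by_cases h0 : y (ix0 e) = 0
  · have h1 := hx.resolve_left (not_not.2 h0)
    refine ⟨y (iz e e) / y (ix1 e) ^ e, fun l hl => ?_⟩
    rcases eq_or_lt_of_le hl with hl | hl
    · rw [hl, Nat.sub_self, pow_zero, one_mul, mul_div_cancel₀ _ (pow_ne_zero _ h1)]
    · have h2 := hy' l hl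
      rw [h0, zero_mul] at h2
      rw [(mul_eq_zero.1 h2.symm).resolve_left h1, h0, zero_pow (by omega), zero_mul, zero_mul]
  · refine ⟨y (iz e 0) / y (ix0 e) ^ e, fun l => ?_⟩
    induction l with
    | zero =>
      intro _
      rw [Nat.sub_zero, pow_zero, mul_one, mul_div_cancel₀ _ (pow_ne_zero _ h0)]
    | succ l ih =>
      intro hl
      have h2 := hy' l (by omega)
      rw [ih (by omega)] at h2
      have e1 : e - l = (e - (l + 1)) + 1 := by omega
      rw [e1, pow_succ] at h2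
      have h3 : y (ix0 e) * y (iz e (l + 1)) = y (ix0 e) *
          (y (ix0 e) ^ (e - (l + 1)) * y (ix1 e) ^ (l + 1) * (y (iz e 0) / y (ix0 e) ^ e)) := by
        rw [h2, pow_succ]
        ring
      exact mul_left_cancel₀ h0 h3

theorem rel_x {y : Sig (mm e) → K} (hy : Rel y) : y (ix0 e) ≠ 0 ∨ y (ix1 e) ≠ 0 := by
  obtain ⟨⟨i, hi⟩, h⟩ := hy 0
  have hi' : i < 2 := hi
  rcases Nat.lt_succ_iff_lt_or_eq.1 hi' with h1 | h1
  · have : i = 0 := by omega
    subst this
    exact Or.inl h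
  · subst h1
    exact Or.inr h

theorem rel_s {y : Sig (mm e) → K} (hy : Rel y) {s : K} (hs : OnScroll y s) :
    y (is0 e) ≠ 0 ∨ s ≠ 0 := by
  obtain ⟨⟨i, hi⟩, h⟩ := hy 1
  have hi' : i < e + 1 + 1 := hi
  rcases Nat.eq_zero_or_pos i with h1 | h1
  · subst h1
    exact Or.inl h
  · right
    rintro rfl
    apply h
    have e1 : (⟨1, ⟨i, hi⟩⟩ : Sig (mm e)) = iz e (i - 1) := by
      unfold iz
      congr 2
      rw [min_eq_left (by omega : i - 1 ≤ e)]
      omega
    rw [e1, hs (i - 1) (by omega), mul_zero]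

end sys

end Pool.Agent.Helper50R
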