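import Pool.Agent.Helper50R.Alg
import Pool.Agent.Helper50R.Line
import Pool.Agent.Helper50R.Sys
import Pool.Agent.Helper50R.Dim

/-!
# Approximation of curves on rational ruled surfaces
-/

set_option autoImplicit false

namespace Pool.Agent.Helper50R

open MvPolynomial Pool.Agent.W476.TP

section one

/-- one factor, of dimension one -/
def m1 : Fin 1 → ℕ := fun _ => 1

/-- The binary form with the coefficients of `p`. -/
noncomputable def bin {K : Type} [Field K] (a : ℕ) (p : Polynomial K) : MvPolynomial (Sig m1) K :=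
  ∑ j ∈ Finset.range (a + 1), C (p.coeff j) * (X ⟨0, 0⟩ ^ (a - j) * X ⟨0, 1⟩ ^ j)

theorem single_one' : (Pi.single 0 1 : Fin 1 → ℕ) = fun _ => 1 := by
  funext i
  fin_cases i
  rfl

theorem bin_hom {K : Type} [Field K] (a : ℕ) (p : Polynomial K) : MH (bin a p) fun _ => a := by
  unfold bin
  refine IsWeightedHomogeneous.sum _ _ _ fun j hj => ?_
  have h0 := isWeightedHomogeneous_X K (wt m1) (⟨0, 0⟩ : Sig m1)
  have h1 := isWeightedHomogeneous_X K (wt m1) (⟨0, 1⟩ : Sig m1)
  have h := (isWeightedHomogeneous_C (wt m1) (p.coeff j)).mul ((h0.pow (a - j)).mul (h1.pow j))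
  have e : (0 + ((a - j) • wt m1 ⟨0, 0⟩ + j • wt m1 ⟨0, 1⟩) : Fin 1 → ℕ) = fun _ => a := by
    have e1 : wt m1 ⟨0, 0⟩ = fun _ => 1 := single_one'
    have e2 : wt m1 ⟨0, 1⟩ = fun _ => 1 := single_one'
    funext i
    rw [e1, e2]
    simp only [Pi.add_apply, Pi.zero_apply, Pi.smul_apply, smul_eq_mul, mul_one, zero_add]
    have := Finset.mem_range.1 hj
    omega
  rwa [e] at h

theorem eval_bin {K : Type} [Field K] (a : ℕ) (p : Polynomial K) (y : Sig m1 → K) :
    eval y (bin a p) = Hm a p (y ⟨0, 0⟩) (y ⟨0, 1⟩) := by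
  unfold bin Hm
  rw [map_sum]
  refine Finset.sum_congr rfl fun j _ => ?_
  rw [map_mul, map_mul, map_pow, map_pow, eval_C, eval_X, eval_X]
  ring

theorem rel_one {K : Type} [Field K] {y : Sig m1 → K} (hy : Rel y) :
    y ⟨0, 0⟩ ≠ 0 ∨ y ⟨0, 1⟩ ≠ 0 := by
  obtain ⟨⟨i, hi⟩, h⟩ := hy 0
  have hi' : i < 2 := hi
  rcases Nat.lt_succ_iff_lt_or_eq.1 hi' with h1 | h1
  · have : i = 0 := by omega
    subst this
    exact Or.inl h
  · subst h1
    exact Or.inr h

end one

variable {p : ℕ} [Fact p.Prime] {C E : Type} [NormedField C] [IsUltrametricDist C] [IsAlgClosed C]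
  [Field E] [CharP E p] [IsAlgClosed E]

/-- The conclusion: there is a closed subset of dimension one of the projective space over `E`,
mapped by the sharp map to the tube. -/
def Concl (S : Sharp p C E) {n : ℕ} (Q : Finset (MvPolynomial (Fin (n + 1)) C)) (ε : ℝ) : Prop :=
  ∃ I : Ideal (MvPolynomial (Fin (n + 1)) E), HomI I ∧
    ringKrullDim (MvPolynomial (Fin (n + 1)) E ⧸ I) = ((1 + 1 : ℕ) : WithBot ℕ∞) ∧
    ∀ z : Fin (n + 1) → E, z ≠ 0 → (∀ P ∈ I, eval z P = 0) → ∀ P ∈ Q, ∀ k,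
      P.IsHomogeneous k → ∃ i, ‖eval (fun i => S.sh (z i)) P‖ ≤ ε * ‖S.sh (z i)‖ ^ k

theorem apply_main (S : Sharp p C E) (hp0 : 0 < ‖(p : C)‖) (hp1 : ‖(p : C)‖ < 1) {L : Type}
    [Field L] [Algebra C L] (htr : Algebra.trdeg C L ≤ 1) {n : ℕ} {f : Fin (n + 1) → L}
    {r c : ℕ} (m : Fin r → ℕ) (g : Fin c → MvPolynomial (Sig m) C) (a : Fin c → Fin r → ℕ)
    (hg : ∀ j, MH (g j) (a j)) (F : Fin (n + 1) → MvPolynomial (Sig m) C) (D : Fin r → ℕ)
    (hF : ∀ i, MH (F i) D) (hD : D ≠ 0)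
    (hbpf : ∀ y : Sig m → C, Rel y → (∀ j, eval y (g j) = 0) → ∃ i, eval y (F i) ≠ 0)
    (τ : Fin c ⊕ Fin 1 → Fin r) (hτ1 : ∀ j, 0 < a j (τ (Sum.inl j)))
    (hτ2 : ∀ k, 0 < D (τ (Sum.inr k)))
    (hτ3 : ∀ κ, (Finset.univ.filter fun x => τ x = κ).card ≤ m κ)
    (hmem : ∀ (P : MvPolynomial (Fin (n + 1)) C) (k : ℕ), P.IsHomogeneous k → aeval f P = 0 →
      ∀ y : Sig m → C, Rel y → (∀ j, eval y (g j) = 0) → eval (fun i => eval y (F i)) P = 0)
    (Q : Finset (MvPolynomial (Fin (n + 1)) C))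
    (hQ : ∀ P ∈ Q, (∃ k, P.IsHomogeneous k) ∧ aeval f P = 0) (ε : ℝ) (hε : 0 < ε) :
    Concl S Q ε := by
  refine main p C E S hp0 hp1 m g a hg F D hF hD hbpf τ hτ1 hτ2 hτ3 ?_ ε hε Q ?_ ?_
  · refine le_antisymm (krull_le (f := f) htr fun P k hP hPf => ?_)
      (krull_ge m g a hg F D hF hD hbpf τ hτ1 hτ2 hτ3)
    exact fun y hy hy2 => hmem P k hP hPf y hy hy2
  · intro P hP y hy hy2
    obtain ⟨⟨k, hk⟩, h⟩ := hQ P hP
    exact hmem P k hk h y hy hy2
  · intro P hP
    exact (hQ P hP).1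

/-- Rational curves. -/
theorem rank_one (S : Sharp p C E) (hp0 : 0 < ‖(p : C)‖) (hp1 : ‖(p : C)‖ < 1) {L : Type}
    [Field L] [Algebra C L] (htr : Algebra.trdeg C L ≤ 1) {x : L} (hx : Transcendental C x) {n : ℕ}
    {f : Fin (n + 1) → L} (hne : ∃ i j, Transcendental C (f i / f j)) (h1 : RankOne (K := C) x f)
    (Q : Finset (MvPolynomial (Fin (n + 1)) C))
    (hQ : ∀ P ∈ Q, (∃ k, P.IsHomogeneous k) ∧ aeval f P = 0) (ε : ℝ) (hε : 0 < ε) :
    Concl S Q ε := by
  obtain ⟨i0, j0, hij⟩ := hne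
  have hf0 : f i0 ≠ 0 := by
    intro h
    rw [h, zero_div] at hij
    exact hij isAlgebraic_zero
  obtain ⟨A0, u0, hR0⟩ := h1
  obtain ⟨a, A, u, hR, hA, hfin, hinf⟩ := exists_reduced_one (K := C) ⟨i0, hf0⟩
    (Finset.univ.sup fun i => (A0 i).natDegree) A0 u0
    (fun i => Finset.le_sup (f := fun i => (A0 i).natDegree) (Finset.mem_univ i)) hR0
  have hu : u ≠ 0 := by
    rintro rfl
    rw [hR i0, mul_zero] at hf0
    exact hf0 rfl
  have ha : 0 < a := by
    by_contra hlt
    have ha0 : a = 0 := by omega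
    subst ha0
    have hconst : ∀ i, f i = algebraMap C L ((A i).coeff 0) * u := by
      intro i
      rw [hR i, Polynomial.eq_C_of_natDegree_le_zero (hA i), phi_apply, Polynomial.aeval_C,
        Polynomial.coeff_C_zero]
    apply hij
    rw [hconst i0, hconst j0, mul_div_mul_right _ _ hu, ← map_div₀]
    exact isAlgebraic_algebraMap _
  refine apply_main S hp0 hp1 htr (f := f) m1 (c := 0) Fin.elim0 Fin.elim0 (fun j => j.elim0)
    (fun i => bin a (A i)) (fun _ => a) (fun i => bin_hom a (A i)) ?_ ?_ (fun _ => 0)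
    (fun j => j.elim0) (fun _ => ha) ?_ ?_ Q hQ ε hε
  · intro h
    have := congrFun h 0
    simp only [Pi.zero_apply] at this
    omega
  · intro y hy _
    simp only [eval_bin]
    by_cases h0 : y ⟨0, 0⟩ = 0
    · have h2 := (rel_one hy).resolve_left (not_not.2 h0)
      obtain ⟨i, hi⟩ := hinf
      refine ⟨i, ?_⟩
      rw [h0, Hm_zero]
      exact mul_ne_zero hi (pow_ne_zero _ h2)
    · obtain ⟨i, hi⟩ := hfin (y ⟨0, 1⟩ / y ⟨0, 0⟩)
      refine ⟨i, ?_⟩
      rw [Hm_eq (hA i) h0]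
      exact mul_ne_zero (pow_ne_zero _ h0) hi
  · intro κ
    refine (Finset.card_filter_le _ _).trans ?_
    simp [m1]
  · intro P k hP hPf y hy _
    simp only [eval_bin]
    exact point_one hx hu hR hA hP hPf _ _ (rel_one hy)

/-- The system. -/
noncomputable def sysG (K : Type) [Field K] (e c δ : ℕ) (h : Polynomial (Polynomial K))
    (j : Fin (e + 1)) : MvPolynomial (Sig (mm e)) K :=
  if (j : ℕ) < e then eqn K e j else Hpoly e c δ h

/-- Its degrees. -/
def sysD (e c δ : ℕ) (j : Fin (e + 1)) : Fin 2 → ℕ :=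
  if (j : ℕ) < e then ![1, 1] else ![c, δ]

theorem sys_hom {K : Type} [Field K] (e c δ : ℕ) (h : Polynomial (Polynomial K))
    (j : Fin (e + 1)) : MH (sysG K e c δ h j) (sysD e c δ j) := by
  unfold sysG sysD
  split_ifs
  · exact eqn_hom _
  · exact Hpoly_hom _ _ _

/-- The assignment. -/
def tau (e : ℕ) : Fin (e + 1) ⊕ Fin 1 → Fin 2 :=
  Sum.elim (fun j => if j = 0 then 0 else 1) fun _ => 1

theorem tau_card (e : ℕ) (κ : Fin 2) :
    (Finset.univ.filter fun x => tau e x = κ).card ≤ mm e κ := by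
  classical
  fin_cases κ
  · change (Finset.univ.filter fun x => tau e x = 0).card ≤ 1
    rw [Finset.card_le_one]
    have key : ∀ x : Fin (e + 1) ⊕ Fin 1, tau e x = 0 → x = Sum.inl 0 := by
      rintro (j | k) hx
      · unfold tau at hx
        rw [Sum.elim_inl] at hx
        split_ifs at hx with hj
        · rw [hj]
        · exact absurd hx (by decide)
      · unfold tau at hx
        rw [Sum.elim_inr] at hx
        exact absurd hx (by decide)
    intro x hx y hy
    rw [key x (Finset.mem_filter.1 hx).2, key y (Finset.mem_filter.1 hy).2]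
  · change (Finset.univ.filter fun x => tau e x = 1).card ≤ e + 1
    have hsub : (Finset.univ.filter fun x => tau e x = 1) ⊆
        Finset.univ.erase (Sum.inl 0 : Fin (e + 1) ⊕ Fin 1) := by
      intro x hx
      rw [Finset.mem_erase]
      refine ⟨?_, Finset.mem_univ _⟩
      rintro rfl
      have := (Finset.mem_filter.1 hx).2
      unfold tau at this
      rw [Sum.elim_inl, if_pos rfl] at this
      exact absurd this (by decide)
    refine (Finset.card_le_card hsub).trans ?_
    rw [Finset.card_erase_of_mem (Finset.mem_univ _)]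
    simp

/-- Curves on rational ruled surfaces. -/
theorem rank_two (S : Sharp p C E) (hp0 : 0 < ‖(p : C)‖) (hp1 : ‖(p : C)‖ < 1) {L : Type}
    [Field L] [Algebra C L] (htr : Algebra.trdeg C L ≤ 1) {x : L} (hx : Transcendental C x) {n : ℕ}
    {f : Fin (n + 1) → L} (h1 : ¬ RankOne (K := C) x f)
    (hrep : ∃ u v : L, ∀ i, f i ∈ Submodule.span (IntermediateField.adjoin C {x}) ({u, v} : Set L))
    (Q : Finset (MvPolynomial (Fin (n + 1)) C))
    (hQ : ∀ P ∈ Q, (∃ k, P.IsHomogeneous k) ∧ aeval f P = 0) (ε : ℝ) (hε : 0 < ε) :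
    Concl S Q ε := by
  classical
  obtain ⟨a₀, b₀, A₀, B₀, u₀, v₀, hR₀⟩ := exists_initial hrep
  obtain ⟨a, b, A, B, u, v, hab, hR, hfin, hinf⟩ := exists_reduced h1 _ a₀ b₀ A₀ B₀ u₀ v₀ le_rfl
    hR₀
  obtain ⟨e, rfl⟩ := Nat.exists_eq_add_of_le hab
  have hu := u_ne h1 hR
  have hv := v_ne h1 hR
  obtain ⟨δ, h, h0, hδ, hev, hmin, hprim⟩ := exists_eqn (phi_inj hx)
    (exists_relation htr hx (v / u))
  have hδ1 : 1 ≤ δ := hδ ▸ one_le_natDegree (phi_inj hx) h0 hev
  -- the constant coefficient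
  have hh0 : h.coeff 0 ≠ 0 := by
    intro h2
    obtain ⟨q, hq⟩ := Polynomial.X_dvd_iff.2 h2
    have hq0 : q ≠ 0 := by
      rintro rfl
      rw [mul_zero] at hq
      exact h0 hq
    have hqev : ev (phi C x) (v / u) q = 0 := by
      rw [hq, map_mul, ev_X] at hev
      exact (mul_eq_zero.1 hev).resolve_left (div_ne_zero hv hu)
    have h3 := hmin q hq0 hqev
    rw [hq, Polynomial.natDegree_X_mul hq0] at hδ
    omega
  -- the degree in `x`
  have hex : ∃ c' : ℕ, ∀ i, (h.coeff i).natDegree ≤ c' + i * e := by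
    refine ⟨(Finset.range (δ + 1)).sup fun i => (h.coeff i).natDegree, fun i => ?_⟩
    by_cases hi : i ≤ δ
    · have := Finset.le_sup (f := fun i => (h.coeff i).natDegree)
        (Finset.mem_range.2 (by omega : i < δ + 1))
      exact this.trans (Nat.le_add_right _ _)
    · rw [Polynomial.coeff_eq_zero_of_natDegree_lt (by omega), Polynomial.natDegree_zero]
      exact Nat.zero_le _
  set c' := Nat.find hex with hc'
  have hb : ∀ i, (h.coeff i).natDegree ≤ c' + i * e := Nat.find_spec hex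
  have htop : ∃ i ≤ δ, (h.coeff i).coeff (c' + i * e) ≠ 0 := by
    rcases Nat.eq_zero_or_pos c' with h2 | h2
    · refine ⟨0, Nat.zero_le _, ?_⟩
      have h3 := hb 0
      rw [h2, zero_mul, add_zero] at h3 ⊢
      intro h4
      apply hh0
      rw [Polynomial.eq_C_of_natDegree_le_zero h3, h4, Polynomial.C_0]
    · have h3 := Nat.find_min hex (m := c' - 1) (by omega)
      push Not at h3
      obtain ⟨i, hi⟩ := h3
      have h4 : (h.coeff i).natDegree = c' + i * e := by
        have := hb i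
        omega
      have h5 : h.coeff i ≠ 0 := by
        intro h6
        rw [h6, Polynomial.natDegree_zero] at hi
        omega
      refine ⟨i, ?_, ?_⟩
      · by_contra h6
        exact h5 (Polynomial.coeff_eq_zero_of_natDegree_lt (by omega))
      · rw [← h4, Polynomial.coeff_natDegree]
        exact Polynomial.leadingCoeff_ne_zero.2 h5
  have hce : e = 0 → 0 < c' := by
    intro he
    by_contra hlt
    have hc0 : c' = 0 := by omega
    obtain ⟨κ, hκ⟩ := const_of_const h0 hev fun i => by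
      have := hb i
      rw [hc0, he] at this
      omega
    exact ratio_ne h1 hR κ hκ.symm
  have hscroll : ∀ y : Sig (mm e) → C, Rel y → (∀ j, eval y (sysG C e c' δ h j) = 0) →
      ∃ s, OnScroll y s ∧ ∑ i ∈ Finset.range (δ + 1),
        Hm (c' + i * e) (h.coeff i) (y (ix0 e)) (y (ix1 e)) * y (is0 e) ^ (δ - i) * s ^ i = 0 := by
    intro y hy hy2
    obtain ⟨s, hs⟩ := exists_scroll (rel_x hy) fun l hl => by
      have := hy2 ⟨l, by omega⟩
      unfold sysG at this
      rwa [if_pos hl] at this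
    refine ⟨s, hs, ?_⟩
    have := hy2 (Fin.last e)
    unfold sysG at this
    rw [if_neg (by simp), eval_Hpoly hs] at this
    exact this
  refine apply_main S hp0 hp1 htr (f := f) (mm e) (sysG C e c' δ h) (sysD e c' δ)
    (sys_hom e c' δ h) (fun i => Fpoly e a (A i) (B i)) ![a, 1]
    (fun i => Fpoly_hom a (A i) (B i)) ?_ ?_ (tau e) ?_ ?_ (tau_card e) ?_ Q hQ ε hε
  · intro h2
    have := congrFun h2 1
    simp at this
  · intro y hy hy2
    obtain ⟨s, hs, -⟩ := hscroll y hy hy2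
    by_contra hcon
    push Not at hcon
    simp only [eval_Fpoly hs] at hcon
    by_cases hx0 : y (ix0 e) = 0
    · have hx1 := (rel_x hy).resolve_left (not_not.2 hx0)
      obtain ⟨h3, h4⟩ := hinf (y (ix1 e) ^ a * y (is0 e)) (y (ix1 e) ^ (a + e) * s) fun i => by
        have h5 := hcon i
        rw [hx0, Hm_zero, Hm_zero] at h5
        linear_combination h5
      rcases rel_s hy hs with h6 | h6
      · exact h6 ((mul_eq_zero.1 h3).resolve_left (pow_ne_zero _ hx1))
      · exact h6 ((mul_eq_zero.1 h4).resolve_left (pow_ne_zero _ hx1))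
    · obtain ⟨h3, h4⟩ := hfin (y (ix1 e) / y (ix0 e)) (y (ix0 e) ^ a * y (is0 e))
        (y (ix0 e) ^ (a + e) * s) fun i => by
        have h5 := hcon i
        rw [Hm_eq (hR.degA i) hx0, Hm_eq (hR.degB i) hx0] at h5
        linear_combination h5
      rcases rel_s hy hs with h6 | h6
      · exact h6 ((mul_eq_zero.1 h3).resolve_left (pow_ne_zero _ hx0))
      · exact h6 ((mul_eq_zero.1 h4).resolve_left (pow_ne_zero _ hx0))
  · intro j
    unfold tau sysD
    rw [Sum.elim_inl]
    by_cases hj : (j : ℕ) < e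
    · rw [if_pos hj]
      split_ifs <;> simp
    · rw [if_neg hj]
      split_ifs with hj0
      · change 0 < c'
        apply hce
        rw [hj0] at hj
        simpa using hj
      · change 0 < δ
        omega
  · intro k
    unfold tau
    rw [Sum.elim_inr]
    simp
  · intro P k hP hPf y hy hy2
    obtain ⟨s, hs, hsum⟩ := hscroll y hy hy2
    simp only [eval_Fpoly hs]
    exact point hx hu hv hR.rep hR.degA hR.degB hev hδ.le hmin hprim hb htop hP hPf _ _ _ _
      (rel_x hy) (rel_s hy hs) hsum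

/-- **Curves whose coordinates span a space of dimension at most two over a rational function
field.** -/
theorem curves (S : Sharp p C E) (hp0 : 0 < ‖(p : C)‖) (hp1 : ‖(p : C)‖ < 1) {L : Type}
    [Field L] [Algebra C L] (htr : Algebra.trdeg C L ≤ 1) {x : L} (hx : Transcendental C x) {n : ℕ}
    {f : Fin (n + 1) → L} (hne : ∃ i j, Transcendental C (f i / f j))
    (hrep : ∃ u v : L, ∀ i, f i ∈ Submodule.span (IntermediateField.adjoin C {x}) ({u, v} : Set L))
    (Q : Finset (MvPolynomial (Fin (n + 1)) C))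
    (hQ : ∀ P ∈ Q, (∃ k, P.IsHomogeneous k) ∧ aeval f P = 0) (ε : ℝ) (hε : 0 < ε) :
    Concl S Q ε := by
  by_cases h1 : RankOne (K := C) x f
  · exact rank_one S hp0 hp1 htr hx hne h1 Q hQ ε hε
  · exact rank_two S hp0 hp1 htr hx h1 hrep Q hQ ε hε

end Pool.Agent.Helper50R
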