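import Pool.Agent.Helper50R.Rep

/-!
# Function fields of transcendence degree one
-/

set_option autoImplicit false

namespace Pool.Agent.Helper50R

open Polynomial

section alg

variable {K L : Type} [Field K] [Field L] [Algebra K L]

/-- The elements of `Algebra.adjoin K {x}` are polynomials in `x`. -/
theorem exists_lift (x : L) (c : Algebra.adjoin K (Set.range fun _ : Unit => x)) :
    ∃ a : K[X], phi K x a = (c : L) := by
  obtain ⟨c, hc⟩ := c
  have h : c ∈ Algebra.adjoin K (Set.range fun _ : Unit => x) := hc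
  rw [Set.range_const, Algebra.adjoin_singleton_eq_range_aeval] at h
  exact h

theorem exists_relation (htr : Algebra.trdeg K L ≤ 1) {x : L} (hx : Transcendental K x) (w : L) :
    ∃ g : K[X][X], g ≠ 0 ∧ ev (phi K x) w g = 0 := by
  classical
  have h1 : AlgebraicIndependent K (fun _ : Unit => x) := by
    rw [algebraicIndependent_unique_type_iff]
    exact hx
  have h2 : IsTranscendenceBasis K (fun _ : Unit => x) :=
    h1.isTranscendenceBasis_of_trdeg_le_of_finite (by simpa using htr)
  have h3 := h2.isAlgebraic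
  obtain ⟨p, hp, hp2⟩ := h3.isAlgebraic w
  choose a ha using fun i => exists_lift (K := K) x (p.coeff i)
  refine ⟨mk (p.natDegree + 1) a, ?_, ?_⟩
  · intro h0
    have h4 : (mk (p.natDegree + 1) a).coeff p.natDegree = 0 := by rw [h0, coeff_zero]
    rw [coeff_mk, if_pos (Nat.lt_succ_self _)] at h4
    have h5 := ha p.natDegree
    rw [h4, map_zero] at h5
    apply hp
    rw [← leadingCoeff_eq_zero]
    exact Subtype.ext h5.symm
  · rw [ev_mk]
    rw [aeval_eq_sum_range] at hp2
    rw [← hp2]
    refine Finset.sum_congr rfl fun i _ => ?_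
    rw [ha i]
    rfl

theorem exists_initial {n : ℕ} {x : L} {f : Fin (n + 1) → L}
    (h : ∃ u v : L, ∀ i, f i ∈ Submodule.span (IntermediateField.adjoin K {x}) ({u, v} : Set L)) :
    ∃ (a b : ℕ) (A B : Fin (n + 1) → K[X]) (u v : L), Rep x f a b A B u v := by
  classical
  obtain ⟨u, v, h⟩ := h
  have h1 : ∀ i, ∃ p q r s : K[X], f i = phi K x p / phi K x q * u + phi K x r / phi K x s * v ∧
      phi K x q ≠ 0 ∧ phi K x s ≠ 0 := by
    intro i
    obtain ⟨α, β, hαβ⟩ := Submodule.mem_span_pair.1 (h i)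
    have key : ∀ γ : IntermediateField.adjoin K {x}, ∃ p q : K[X],
        (γ : L) = phi K x p / phi K x q ∧ phi K x q ≠ 0 := by
      intro γ
      obtain ⟨p, q, hpq⟩ := (IntermediateField.mem_adjoin_simple_iff K (γ : L)).1 γ.2
      by_cases hq : aeval x q = 0
      · refine ⟨0, 1, ?_, ?_⟩
        · rw [hpq, hq, div_zero, map_zero, zero_div]
        · rw [map_one]
          exact one_ne_zero
      · exact ⟨p, q, hpq, hq⟩
    obtain ⟨p, q, h2, h3⟩ := key α
    obtain ⟨r, s, h4, h5⟩ := key β
    refine ⟨p, q, r, s, ?_, h3, h5⟩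
    rw [← hαβ, IntermediateField.smul_def, IntermediateField.smul_def, smul_eq_mul, smul_eq_mul,
      h2, h4]
  choose p q r s h2 h3 h4 using h1
  set Q : L := ∏ i, phi K x (q i) with hQ
  set R : L := ∏ i, phi K x (s i) with hR
  have hQ0 : Q ≠ 0 := Finset.prod_ne_zero_iff.2 fun i _ => h3 i
  have hR0 : R ≠ 0 := Finset.prod_ne_zero_iff.2 fun i _ => h4 i
  refine ⟨Finset.univ.sup fun i => (p i * ∏ j ∈ Finset.univ.erase i, q j).natDegree,
    Finset.univ.sup fun i => (r i * ∏ j ∈ Finset.univ.erase i, s j).natDegree,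
    fun i => p i * ∏ j ∈ Finset.univ.erase i, q j,
    fun i => r i * ∏ j ∈ Finset.univ.erase i, s j, u / Q, v / R, ?_, fun i =>
      Finset.le_sup (f := fun i => (p i * ∏ j ∈ Finset.univ.erase i, q j).natDegree)
        (Finset.mem_univ i), fun i =>
      Finset.le_sup (f := fun i => (r i * ∏ j ∈ Finset.univ.erase i, s j).natDegree)
        (Finset.mem_univ i)⟩
  intro i
  have e1 : Q = phi K x (q i) * phi K x (∏ j ∈ Finset.univ.erase i, q j) := by
    rw [map_prod, Finset.mul_prod_erase Finset.univ (fun j => phi K x (q j)) (Finset.mem_univ i)]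
  have e2 : R = phi K x (s i) * phi K x (∏ j ∈ Finset.univ.erase i, s j) := by
    rw [map_prod, Finset.mul_prod_erase Finset.univ (fun j => phi K x (s j)) (Finset.mem_univ i)]
  have h5 : phi K x (∏ j ∈ Finset.univ.erase i, q j) ≠ 0 := by
    intro h6
    rw [e1, h6, mul_zero] at hQ0
    exact hQ0 rfl
  have h6 : phi K x (∏ j ∈ Finset.univ.erase i, s j) ≠ 0 := by
    intro h7
    rw [e2, h7, mul_zero] at hR0
    exact hR0 rfl
  have h7 := h3 i
  have h8 := h4 i
  rw [h2 i, e1, e2, map_mul, map_mul]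
  field_simp

theorem mem_of_algebraic [IsAlgClosed K] {w : L} (h : IsAlgebraic K w) :
    ∃ c : K, algebraMap K L c = w := by
  obtain ⟨c, hc⟩ := h.isIntegral.mem_range_algebraMap_of_minpoly_splits (K := K)
    (IsAlgClosed.splits _)
  exact ⟨c, hc⟩

/-- If the coefficients of the equation are constants then the ratio is constant. -/
theorem const_of_const [IsAlgClosed K] {x w : L} {h : K[X][X]} (h0 : h ≠ 0)
    (hev : ev (phi K x) w h = 0) (hc : ∀ i, (h.coeff i).natDegree = 0) :
    ∃ c : K, algebraMap K L c = w := by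
  apply mem_of_algebraic
  refine ⟨mk (h.natDegree + 1) fun i => (h.coeff i).coeff 0, ?_, ?_⟩
  · intro h1
    have h2 : (mk (h.natDegree + 1) fun i => (h.coeff i).coeff 0).coeff h.natDegree = 0 := by
      rw [h1, coeff_zero]
    rw [coeff_mk, if_pos (Nat.lt_succ_self _)] at h2
    apply h0
    rw [← leadingCoeff_eq_zero, leadingCoeff, eq_C_of_natDegree_eq_zero (hc h.natDegree), h2, C_0]
  · rw [ev_eq_sum _ _ _ _ le_rfl] at hev
    unfold mk
    rw [map_sum, ← hev]
    refine Finset.sum_congr rfl fun i _ => ?_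
    rw [map_mul, map_pow, aeval_X, aeval_C]
    congr 1
    conv_rhs => rw [eq_C_of_natDegree_eq_zero (hc i), phi_apply, aeval_C]

end alg

end Pool.Agent.Helper50R
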