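import Mathlib

/-!
# Polynomial relations between two functions on a curve, chart by chart
-/

set_option autoImplicit false

namespace Pool.Agent.Helper50R

open Polynomial

section basic

variable {K L : Type} [Field K] [Field L]

/-- The value at `w` of a polynomial with coefficients in `K[X]`, with `φ` applied to the
coefficients. -/
noncomputable def ev {R : Type} [CommRing R] (φ : K[X] →+* R) (w : R) : K[X][X] →+* R :=
  eval₂RingHom φ w

theorem ev_apply {R : Type} [CommRing R] (φ : K[X] →+* R) (w : R) (g : K[X][X]) :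
    ev φ w g = eval₂ φ w g := rfl

theorem ev_C {R : Type} [CommRing R] (φ : K[X] →+* R) (w : R) (a : K[X]) :
    ev φ w (C a) = φ a := by
  rw [ev_apply, eval₂_C]

theorem ev_X {R : Type} [CommRing R] (φ : K[X] →+* R) (w : R) :
    ev φ w X = w := by
  rw [ev_apply, eval₂_X]

/-- The polynomial with the coefficients `a i`, `i < N`. -/
noncomputable def mk {R : Type} [CommRing R] (N : ℕ) (a : ℕ → R) : R[X] :=
  ∑ i ∈ Finset.range N, C (a i) * X ^ i

theorem coeff_mk {R : Type} [CommRing R] (N : ℕ) (a : ℕ → R) (j : ℕ) :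
    (mk N a).coeff j = if j < N then a j else 0 := by
  unfold mk
  rw [finsetSum_coeff]
  simp only [coeff_C_mul, coeff_X_pow, mul_ite, mul_one, mul_zero]
  rw [Finset.sum_ite_eq]
  simp

theorem natDegree_mk_le {R : Type} [CommRing R] (N : ℕ) (a : ℕ → R) :
    (mk (N + 1) a).natDegree ≤ N := by
  rw [natDegree_le_iff_coeff_eq_zero]
  intro j hj
  rw [coeff_mk, if_neg (by omega)]

theorem ev_mk {R : Type} [CommRing R] (φ : K[X] →+* R) (w : R) (N : ℕ) (a : ℕ → K[X]) :
    ev φ w (mk N a) = ∑ i ∈ Finset.range N, φ (a i) * w ^ i := by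
  unfold mk
  rw [map_sum]
  refine Finset.sum_congr rfl fun i _ => ?_
  rw [map_mul, map_pow, ev_C, ev_X]

theorem ev_eq_sum {R : Type} [CommRing R] (φ : K[X] →+* R) (w : R) (g : K[X][X]) (N : ℕ)
    (hN : g.natDegree ≤ N) :
    ev φ w g = ∑ i ∈ Finset.range (N + 1), φ (g.coeff i) * w ^ i := by
  rw [ev_apply, eval₂_eq_sum_range' _ (Nat.lt_succ_of_le hN)]

/-- Every nonzero polynomial relation for `w` over the image of `φ` has degree at least `δ`. -/
def Min (φ : K[X] →+* L) (w : L) (δ : ℕ) : Prop :=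
  ∀ g : K[X][X], g ≠ 0 → ev φ w g = 0 → δ ≤ g.natDegree

/-- The coefficients of `h` have no common root. -/
def Prim (h : K[X][X]) : Prop := ∀ c : K, ∃ i, (h.coeff i).eval c ≠ 0

theorem one_le_natDegree {φ : K[X] →+* L} (hφ : Function.Injective φ) {w : L} {h : K[X][X]}
    (h0 : h ≠ 0) (hev : ev φ w h = 0) : 1 ≤ h.natDegree := by
  by_contra hlt
  have hd : h.natDegree = 0 := by omega
  rw [eq_C_of_natDegree_eq_zero hd, ev_C] at hev
  have h1 : h.coeff 0 = 0 := hφ (by rw [hev, map_zero])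
  apply h0
  rw [eq_C_of_natDegree_eq_zero hd, h1, C_0]

theorem pseudo {φ : K[X] →+* L} (hφ : Function.Injective φ) {w : L} {h : K[X][X]} {δ : ℕ}
    (h0 : h ≠ 0) (hev : ev φ w h = 0) (hδ : h.natDegree ≤ δ) (hmin : Min φ w δ) :
    ∀ (N : ℕ) (g : K[X][X]), g.natDegree ≤ N → ev φ w g = 0 → ∃ a : K[X], a ≠ 0 ∧ h ∣ C a * g := by
  intro N
  induction N with
  | zero =>
    intro g hg hgev
    refine ⟨1, one_ne_zero, ?_⟩
    have : g = 0 := by
      by_contra hg0
      have := one_le_natDegree hφ hg0 hgev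
      omega
    rw [this, mul_zero]
    exact dvd_zero _
  | succ N ih =>
    intro g hg hgev
    by_cases hg0 : g = 0
    · exact ⟨1, one_ne_zero, by rw [hg0, mul_zero]; exact dvd_zero _⟩
    have hk : h.natDegree ≤ g.natDegree := hδ.trans (hmin g hg0 hgev)
    set k := g.natDegree with hkdef
    set d := h.natDegree with hddef
    have hlc : h.leadingCoeff ≠ 0 := leadingCoeff_ne_zero.2 h0
    set g1 : K[X][X] := C h.leadingCoeff * g - C g.leadingCoeff * X ^ (k - d) * h with hg1
    have hg1ev : ev φ w g1 = 0 := by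
      rw [hg1, map_sub, map_mul, map_mul, hgev, hev, mul_zero, mul_zero, sub_zero]
    have hk1 : 1 ≤ k := one_le_natDegree hφ hg0 hgev
    have hdeg : g1.natDegree ≤ N := by
      have h1 : g1.natDegree ≤ k - 1 := by
        rw [natDegree_le_iff_coeff_eq_zero]
        intro j hj
        have hjk : k ≤ j := by omega
        rw [hg1, coeff_sub, coeff_C_mul]
        have e1 : (C g.leadingCoeff * X ^ (k - d) * h).coeff j =
            g.leadingCoeff * h.coeff (j - (k - d)) := by
          rw [mul_assoc, coeff_C_mul, coeff_X_pow_mul', if_pos (by omega)]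
        rw [e1]
        rcases eq_or_lt_of_le hjk with hj2 | hj2
        · have e2 : j - (k - d) = d := by omega
          have e3 : g.coeff j = g.leadingCoeff := by rw [← hj2]; rfl
          have e4 : h.coeff d = h.leadingCoeff := rfl
          rw [e2, e3, e4, mul_comm, sub_self]
        · rw [coeff_eq_zero_of_natDegree_lt (by omega : g.natDegree < j),
            coeff_eq_zero_of_natDegree_lt (by omega : h.natDegree < j - (k - d)), mul_zero,
            mul_zero, sub_zero]
      omega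
    obtain ⟨a, ha, hdvd⟩ := ih g1 hdeg hg1ev
    refine ⟨a * h.leadingCoeff, mul_ne_zero ha hlc, ?_⟩
    have e : C (a * h.leadingCoeff) * g =
        C a * g1 + C a * C g.leadingCoeff * X ^ (k - d) * h := by
      rw [hg1, C_mul]
      ring
    rw [e]
    exact dvd_add hdvd (Dvd.intro_left _ rfl)

theorem cancel [IsAlgClosed K] {h : K[X][X]} (hp : Prim h) :
    ∀ (N : ℕ) (a : K[X]), a.natDegree ≤ N → a ≠ 0 → ∀ g : K[X][X], h ∣ C a * g → h ∣ g := by
  intro N
  induction N with
  | zero =>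
    intro a ha ha0 g hd
    have h1 : a = C (a.coeff 0) := eq_C_of_natDegree_le_zero ha
    have h2 : a.coeff 0 ≠ 0 := by
      intro h3
      rw [h3, C_0] at h1
      exact ha0 h1
    have h4 : g = C (C (a.coeff 0)⁻¹) * (C a * g) := by
      rw [← mul_assoc, ← C_mul]
      nth_rewrite 2 [h1]
      rw [← C_mul, inv_mul_cancel₀ h2, C_1, C_1, one_mul]
    rw [h4]
    exact Dvd.dvd.mul_left hd _
  | succ N ih =>
    intro a ha ha0 g hd
    by_cases hN : a.natDegree ≤ N
    · exact ih a hN ha0 g hd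
    have hdeg : a.degree ≠ 0 := by
      intro h1
      have h2 : a.natDegree = 0 := natDegree_eq_of_degree_eq_some h1
      omega
    obtain ⟨c, hc⟩ := IsAlgClosed.exists_root a hdeg
    obtain ⟨a', ha'⟩ := dvd_iff_isRoot.2 hc
    have ha'0 : a' ≠ 0 := by
      rintro rfl
      rw [mul_zero] at ha'
      exact ha0 ha'
    have ha'd : a'.natDegree ≤ N := by
      have : a.natDegree = 1 + a'.natDegree := by
        rw [ha', natDegree_mul (X_sub_C_ne_zero c) ha'0, natDegree_X_sub_C]
      omega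
    obtain ⟨q, hq⟩ := hd
    have hprime : Prime (C (X - C c) : K[X][X]) := prime_C_iff.2 (prime_X_sub_C c)
    have h1 : C (X - C c) ∣ h * q := by
      rw [← hq, ha', C_mul, mul_assoc]
      exact dvd_mul_right _ _
    rcases hprime.dvd_or_dvd h1 with h2 | ⟨q', hq'⟩
    · exfalso
      obtain ⟨i, hi⟩ := hp c
      apply hi
      exact dvd_iff_isRoot.1 ((C_dvd_iff_dvd_coeff _ _).1 h2 i)
    · apply ih a' ha'd ha'0 g
      refine ⟨q', ?_⟩
      have h3 : (C (X - C c) : K[X][X]) * (C a' * g) = C (X - C c) * (h * q') := by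
        rw [← mul_assoc, ← C_mul, ← ha', hq, hq']
        ring
      exact mul_left_cancel₀ hprime.ne_zero h3

theorem dvd_of_ev [IsAlgClosed K] {φ : K[X] →+* L} (hφ : Function.Injective φ) {w : L}
    {h : K[X][X]} {δ : ℕ} (hev : ev φ w h = 0) (hδ : h.natDegree ≤ δ) (hmin : Min φ w δ)
    (hp : Prim h) {g : K[X][X]} (hg : ev φ w g = 0) : h ∣ g := by
  have h0 : h ≠ 0 := by
    rintro rfl
    obtain ⟨i, hi⟩ := hp 0
    exact hi (by rw [coeff_zero, eval_zero])
  obtain ⟨a, ha, hd⟩ := pseudo hφ h0 hev hδ hmin g.natDegree g le_rfl hg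
  exact cancel hp a.natDegree a le_rfl ha g hd

/-- Existence of the equation. -/
theorem exists_eqn [IsAlgClosed K] {φ : K[X] →+* L} (hφ : Function.Injective φ) {w : L}
    (hw : ∃ g : K[X][X], g ≠ 0 ∧ ev φ w g = 0) :
    ∃ (δ : ℕ) (h : K[X][X]), h ≠ 0 ∧ h.natDegree = δ ∧ ev φ w h = 0 ∧ Min φ w δ ∧ Prim h := by
  classical
  have hex : ∃ δ : ℕ, ∃ h : K[X][X], h ≠ 0 ∧ h.natDegree = δ ∧ ev φ w h = 0 := by
    obtain ⟨g, h1, h2⟩ := hw
    exact ⟨_, g, h1, rfl, h2⟩
  have hδ := Nat.find_spec hex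
  have hmin : Min φ w (Nat.find hex) := by
    intro g h1 h2
    exact Nat.find_min' hex ⟨g, h1, rfl, h2⟩
  set δ := Nat.find hex with hδdef
  have hex2 : ∃ k : ℕ, ∃ h : K[X][X], h ≠ 0 ∧ h.natDegree = δ ∧ ev φ w h = 0 ∧
      h.leadingCoeff.natDegree = k := by
    obtain ⟨h, h1, h2, h3⟩ := hδ
    exact ⟨_, h, h1, h2, h3, rfl⟩
  obtain ⟨h, h0, h1, h2, h3⟩ := Nat.find_spec hex2
  refine ⟨δ, h, h0, h1, h2, hmin, ?_⟩
  intro c
  by_contra hc
  push Not at hc
  have hdv : C (X - C c) ∣ h := by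
    rw [C_dvd_iff_dvd_coeff]
    intro i
    exact dvd_iff_isRoot.2 (hc i)
  obtain ⟨h', hh'⟩ := hdv
  have hX : (X - C c : K[X]) ≠ 0 := X_sub_C_ne_zero c
  have h'0 : h' ≠ 0 := by
    rintro rfl
    rw [mul_zero] at hh'
    exact h0 hh'
  have hφX : φ (X - C c) ≠ 0 := fun h4 => hX (hφ (by rw [h4, map_zero]))
  have hev' : ev φ w h' = 0 := by
    rw [hh', map_mul, ev_C] at h2
    exact (mul_eq_zero.1 h2).resolve_left hφX
  have hnd : h'.natDegree = δ := by
    rw [← h1, hh', natDegree_C_mul hX]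
  have hlc : h.leadingCoeff.natDegree = 1 + h'.leadingCoeff.natDegree := by
    have e : h.leadingCoeff = (X - C c) * h'.leadingCoeff := by
      rw [hh', leadingCoeff_mul, leadingCoeff_C]
    rw [e, natDegree_mul hX (leadingCoeff_ne_zero.2 h'0), natDegree_X_sub_C]
  have := Nat.find_min' hex2 ⟨h', h'0, hnd, hev', rfl⟩
  omega

theorem Min.inv {φ : K[X] →+* L} {w : L} {δ : ℕ} (hw : w ≠ 0) (h : Min φ w δ) :
    Min φ w⁻¹ δ := by
  intro g hg hev
  have : Invertible w⁻¹ := invertibleOfNonzero (inv_ne_zero hw)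
  have h1 := eval₂_reverse_mul_pow φ w⁻¹ g
  rw [invOf_eq_inv, inv_inv] at h1
  have h2 : ev φ w g.reverse = 0 := by
    rw [ev_apply] at hev ⊢
    rw [hev] at h1
    exact (mul_eq_zero.1 h1).resolve_right (pow_ne_zero _ (inv_ne_zero hw))
  exact (h g.reverse (by rwa [Ne, reverse_eq_zero]) h2).trans (reverse_natDegree_le g)

end basic

end Pool.Agent.Helper50R
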