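import Pool.Agent.Helper50R.Chart

/-!
# Forms vanishing at a point of a curve vanish at its specializations
-/

set_option autoImplicit false

namespace Pool.Agent.Helper50R

open Polynomial

section hom

variable {K L : Type} [Field K] [Field L] [Algebra K L] {n : ℕ}

theorem aeval_smul {P : MvPolynomial (Fin (n + 1)) K} {k : ℕ} (hP : P.IsHomogeneous k) (r : L)
    (f : Fin (n + 1) → L) :
    MvPolynomial.aeval (fun i => r * f i) P = r ^ k * MvPolynomial.aeval f P := by
  rw [MvPolynomial.aeval_def, MvPolynomial.aeval_def, MvPolynomial.eval₂_eq',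
    MvPolynomial.eval₂_eq', Finset.mul_sum]
  refine Finset.sum_congr rfl fun d hd => ?_
  have h1 := hP (MvPolynomial.mem_support_iff.1 hd)
  have h2 : ∑ i, d i = k := by
    rw [← h1, Finsupp.weight_apply, Finsupp.sum_fintype _ _ (fun i => by exact zero_smul ℕ _)]
    simp
  have h3 : ∏ i, (r * f i) ^ d i = r ^ k * ∏ i, f i ^ d i := by
    simp_rw [mul_pow]
    rw [Finset.prod_mul_distrib, Finset.prod_pow_eq_pow_sum, h2]
  rw [h3]
  ring

theorem eval_smul {P : MvPolynomial (Fin (n + 1)) K} {k : ℕ} (hP : P.IsHomogeneous k) (r : K)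
    (f : Fin (n + 1) → K) :
    MvPolynomial.eval (fun i => r * f i) P = r ^ k * MvPolynomial.eval f P := by
  have h := aeval_smul (L := K) hP r f
  rwa [MvPolynomial.aeval_eq_eval, MvPolynomial.aeval_eq_eval] at h

/-- Evaluation at `x`. -/
noncomputable def phi (K : Type) {L : Type} [Field K] [Field L] [Algebra K L] (x : L) :
    K[X] →+* L := (aeval x : K[X] →ₐ[K] L).toRingHom

theorem phi_apply (x : L) (p : K[X]) : phi K x p = aeval x p := rfl

theorem phi_inj {x : L} (hx : Transcendental K x) : Function.Injective (phi K x) :=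
  transcendental_iff_injective.1 hx

theorem phi_reflect {x : L} (hx : x ≠ 0) {p : K[X]} {N : ℕ} (hp : p.natDegree ≤ N) :
    phi K x⁻¹ (p.reflect N) * x ^ N = phi K x p := by
  have : Invertible x := invertibleOfNonzero hx
  have h := eval₂_reflect_mul_pow (algebraMap K L) x N p hp
  rw [invOf_eq_inv] at h
  exact h

/-- The composition with `P`. -/
noncomputable def comp (A B : Fin (n + 1) → K[X]) (P : MvPolynomial (Fin (n + 1)) K) :
    K[X][X] :=
  MvPolynomial.eval₂ (C.comp C) (fun i => C (A i) + C (B i) * X) P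

theorem ev_comp {R : Type} [CommRing R] (φ : K[X] →+* R) (w : R) (A B : Fin (n + 1) → K[X])
    (P : MvPolynomial (Fin (n + 1)) K) :
    ev φ w (comp A B P) = MvPolynomial.eval₂ (φ.comp C) (fun i => φ (A i) + φ (B i) * w) P := by
  unfold comp
  rw [MvPolynomial.eval₂_comp_left (ev φ w)]
  congr 1
  · ext a
    simp [ev_C]
  · funext i
    simp [ev_C, ev_X]

theorem chart [IsAlgClosed K] {x : L} (hx : Transcendental K x) {f : Fin (n + 1) → L}
    {t u v : L} (hu : u ≠ 0) {A B : Fin (n + 1) → K[X]}
    (hf : ∀ i, t * f i = phi K x (A i) * u + phi K x (B i) * v) {h : K[X][X]} {δ : ℕ}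
    (hev : ev (phi K x) (v / u) h = 0) (hδ : h.natDegree ≤ δ) (hmin : Min (phi K x) (v / u) δ)
    (hp : Prim h) {P : MvPolynomial (Fin (n + 1)) K} {k : ℕ} (hP : P.IsHomogeneous k)
    (hPf : MvPolynomial.aeval f P = 0) (c y : K) (hcy : ev (evalRingHom c) y h = 0) :
    MvPolynomial.eval (fun i => (A i).eval c + (B i).eval c * y) P = 0 := by
  have h1 : ev (phi K x) (v / u) (comp A B P) = 0 := by
    rw [ev_comp]
    have e1 : (phi K x).comp C = algebraMap K L := by
      ext a
      simp [phi_apply]
    have e2 : (fun i => phi K x (A i) + phi K x (B i) * (v / u)) = fun i => (t / u) * f i := by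
      funext i
      have := hf i
      field_simp
      rw [this]
    rw [e1, e2]
    have h2 := aeval_smul hP (t / u) f
    rw [hPf, mul_zero] at h2
    exact h2
  obtain ⟨q, hq⟩ := dvd_of_ev (phi_inj hx) hev hδ hmin hp h1
  have h3 : ev (evalRingHom c) y (comp A B P) = 0 := by
    rw [hq, map_mul, hcy, zero_mul]
  rw [ev_comp] at h3
  have e3 : (evalRingHom c).comp C = RingHom.id K := by
    ext a
    simp
  rw [e3] at h3
  exact h3

theorem sum_reflect {R : Type} [CommRing R] (h : K[X][X]) {δ : ℕ} (hδ : h.natDegree ≤ δ)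
    (φ : K[X] →+* R) (s t : R) :
    ∑ i ∈ Finset.range (δ + 1), φ ((h.reflect δ).coeff i) * s ^ (δ - i) * t ^ i =
      ∑ i ∈ Finset.range (δ + 1), φ (h.coeff i) * t ^ (δ - i) * s ^ i := by
  rw [← Finset.sum_range_reflect]
  refine Finset.sum_congr rfl fun i hi => ?_
  have hi' : i ≤ δ := by
    have := Finset.mem_range.1 hi
    omega
  have e1 : δ + 1 - 1 - i = δ - i := by omega
  rw [e1, coeff_reflect, revAt_le (Nat.sub_le _ _), Nat.sub_sub_self hi']
  ring

/-- The affine chart for `x`, both charts for the fibre coordinate. -/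
theorem chart2 [IsAlgClosed K] {x : L} (hx : Transcendental K x) {f : Fin (n + 1) → L}
    {t u v : L} (hu : u ≠ 0) (hv : v ≠ 0) {A B : Fin (n + 1) → K[X]}
    (hf : ∀ i, t * f i = phi K x (A i) * u + phi K x (B i) * v) {h : K[X][X]} {δ : ℕ}
    (hev : ev (phi K x) (v / u) h = 0) (hδ : h.natDegree ≤ δ) (hmin : Min (phi K x) (v / u) δ)
    (hp : Prim h) {P : MvPolynomial (Fin (n + 1)) K} {k : ℕ} (hP : P.IsHomogeneous k)
    (hPf : MvPolynomial.aeval f P = 0) (c s₀ s₁ : K) (hs : s₀ ≠ 0 ∨ s₁ ≠ 0)
    (hcs : ∑ i ∈ Finset.range (δ + 1), (h.coeff i).eval c * s₀ ^ (δ - i) * s₁ ^ i = 0) :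
    MvPolynomial.eval (fun i => (A i).eval c * s₀ + (B i).eval c * s₁) P = 0 := by
  by_cases h0 : s₀ = 0
  · have h1 : s₁ ≠ 0 := hs.resolve_left (not_not.2 h0)
    have hmin' : Min (phi K x) (u / v) δ := by
      have := hmin.inv (div_ne_zero hv hu)
      rwa [inv_div] at this
    have hdr : (h.reflect δ).natDegree ≤ δ := by
      rw [natDegree_le_iff_coeff_eq_zero]
      intro j hj
      rw [coeff_reflect, revAt_eq_self_of_lt hj]
      exact coeff_eq_zero_of_natDegree_lt (lt_of_le_of_lt hδ hj)
    have hpr : Prim (h.reflect δ) := by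
      intro c
      obtain ⟨i, hi⟩ := hp c
      have hi' : i ≤ δ := by
        by_contra hlt
        apply hi
        rw [coeff_eq_zero_of_natDegree_lt (by omega), eval_zero]
      refine ⟨δ - i, ?_⟩
      rwa [coeff_reflect, revAt_le (Nat.sub_le _ _), Nat.sub_sub_self hi']
    have hevr : ev (phi K x) (u / v) (h.reflect δ) = 0 := by
      have h2 := sum_reflect h hδ (phi K x) 1 (u / v)
      rw [ev_eq_sum _ _ _ δ hdr]
      simp only [one_pow, mul_one] at h2
      rw [h2]
      have h3 : (v / u) ^ δ * ∑ i ∈ Finset.range (δ + 1), phi K x (h.coeff i) *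
          (u / v) ^ (δ - i) = 0 := by
        rw [← hev, ev_eq_sum _ _ _ δ hδ, Finset.mul_sum]
        refine Finset.sum_congr rfl fun i hi => ?_
        have hi' : i ≤ δ := by
          have := Finset.mem_range.1 hi
          omega
        have e : (v / u) ^ δ = (v / u) ^ i * (v / u) ^ (δ - i) := by
          rw [← pow_add]
          congr 1
          omega
        rw [e]
        have e2 : (v / u) ^ (δ - i) * (u / v) ^ (δ - i) = 1 := by
          rw [← mul_pow, div_mul_div_comm, mul_comm v u, div_self (mul_ne_zero hu hv), one_pow]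
        calc _ = phi K x (h.coeff i) * (v / u) ^ i * ((v / u) ^ (δ - i) * (u / v) ^ (δ - i)) := by
              ring
          _ = _ := by rw [e2, mul_one]
      exact (mul_eq_zero.1 h3).resolve_left (pow_ne_zero _ (div_ne_zero hv hu))
    have h4 := chart hx hv (A := B) (B := A) (fun i => by rw [hf i, add_comm]) hevr hdr hmin' hpr
      hP hPf c 0 (by
        rw [ev_eq_sum _ _ _ δ hdr]
        have h5 := sum_reflect h hδ (evalRingHom c) 1 0
        simp only [one_pow, mul_one] at h5
        rw [h5]
        rw [h0] at hcs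
        have h6 : (h.coeff δ).eval c * s₁ ^ δ = 0 := by
          rw [← hcs, Finset.sum_eq_single_of_mem δ (by simp)]
          · simp
          · intro i hi hne
            have hi' : i ≤ δ := by
              have := Finset.mem_range.1 hi
              omega
            rw [zero_pow (by omega), mul_zero, zero_mul]
        have h7 : (h.coeff δ).eval c = 0 := (mul_eq_zero.1 h6).resolve_right (pow_ne_zero _ h1)
        rw [Finset.sum_eq_single_of_mem δ (by simp)]
        · simp [h7]
        · intro i hi hne
          have hi' : i ≤ δ := by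
            have := Finset.mem_range.1 hi
            omega
          rw [zero_pow (by omega), mul_zero])
    have h8 := eval_smul hP s₁ fun i => (B i).eval c + (A i).eval c * 0
    rw [h4, mul_zero] at h8
    rw [← h8]
    congr 2
    funext i
    rw [h0]
    ring
  · have h1 := chart hx hu hf hev hδ hmin hp hP hPf c (s₁ / s₀) (by
      rw [ev_eq_sum _ _ _ δ hδ]
      have h2 : s₀ ^ δ * ∑ i ∈ Finset.range (δ + 1), evalRingHom c (h.coeff i) *
          (s₁ / s₀) ^ i = 0 := by
        rw [← hcs, Finset.mul_sum]
        refine Finset.sum_congr rfl fun i hi => ?_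
        have hi' : i ≤ δ := by
          have := Finset.mem_range.1 hi
          omega
        have e : s₀ ^ δ = s₀ ^ (δ - i) * s₀ ^ i := by
          rw [← pow_add]
          congr 1
          omega
        rw [e, div_pow, coe_evalRingHom]
        field_simp
      exact (mul_eq_zero.1 h2).resolve_left (pow_ne_zero _ h0))
    have h8 := eval_smul hP s₀ fun i => (A i).eval c + (B i).eval c * (s₁ / s₀)
    rw [h1, mul_zero] at h8
    rw [← h8]
    congr 2
    funext i
    field_simp

end hom

end Pool.Agent.Helper50R
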