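import Pool.Agent.Helper50R.Main

/-!
# Approximation for curves on rational ruled surfaces, in particular for all hyperelliptic curves in
# all projective embeddings

Let `C` be an algebraically closed perfectoid field of characteristic `0` and residue characteristic
`p` (for example `ℂ_p`), and `E = C♭` its tilt, which is algebraically closed of characteristic `p`. The
structure `Sharp p C E` of the starting files consists of the sharp map `sh : E → C`, `x ↦ x♯`, and of the
facts that it is multiplicative, surjective (`C` is algebraically closed) and satisfies
`|(u + v)♯ - (u♯ + v♯)| ≤ |p| max(|u♯|, |v♯|)`; nothing else about perfectoid fields is used. (For `ℂ_p` it is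
constructed in the starting files.)

Let `L` be a field of transcendence degree at most one over `C`, and let `f_0, ..., f_n` be in `L`, such that
some `f_i / f_j` is transcendental over `C`. Let `X` be the irreducible curve in the projective space of
dimension `n` over `C` with the generic point `(f_0 : ... : f_n)`; so a homogeneous polynomial `P` vanishes
on `X` if and only if `P(f_0, ..., f_n) = 0`. Every irreducible curve in `ℙ^n` is given in this way by its
function field `L`.

Theorem. Suppose that there is `x` in `L`, transcendental over `C`, such that `f_0, ..., f_n` lie in a
subspace of `L` of dimension at most two over `C(x)`. Then Q1 holds for `X`: for every finite set `Q` of forms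
vanishing on `X` and every `ε > 0` there is a closed subscheme `Y = V(I)` of dimension one of the projective
space of dimension `n` over `E` such that `|P(z♯)| ≤ ε (max |z_i♯|) ^ (deg P)` for all points `z` of `Y` and
all `P` in `Q`. (If `Q` generates the ideal of `X` up to radical then these tubes are a basis of the
neighbourhoods of the adic space of `X`. The ring of homogeneous coordinates of `Y` has dimension `2`.
The points over the algebraically closed field `E` are dense in the constructible topology of the adic
space of `Y`, so that it lies in the preimage of the tube.)

Remarks (not part of the formal statement).

* `X` is not assumed to be smooth. The condition depends only on `X` with its embedding in `ℙ^n`, and it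
  means that `X` has a pencil `x` such that for almost all members `D` of the pencil the points of `D`
  lie on a line (if the members have at least two points then this line sweeps out a rational ruled
  surface which contains `X`). So the theorem holds for all curves on rational normal scrolls, on cones
  over rational curves, on quadric surfaces, and on all other surfaces which are swept out by lines
  parametrized by a rational curve.
* If `L` has degree two over `C(x)` then the condition holds for all `f_0, ..., f_n` in `L`. So Q1 holds for
  all hyperelliptic curves and for all curves of genus at most two, in all their projective embeddings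
  (and for all curves, possibly singular, whose normalization is such a curve). No condition on the
  line bundle is needed; it need not be proportional to a line bundle coming from a complete
  intersection.
* Before, Q1 was known for complete intersections (Scholze), and (starting files) for images of
  multihomogeneous complete intersections in products of projective spaces, for complete
  intersections in toric varieties, for determinantal varieties and so on. For a given curve and a
  given embedding it is not clear that it is of this kind; the new point is the following
  construction for all line bundles on these curves.

Proof. If the `f_i` lie in a line over `C(x)` then `X` is a rational curve, parametrized by forms of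
positive degree without common zeros. If not, let the subspace be spanned by `u` and `v`. We choose
`u`, `v` and natural numbers `a ≤ b = a + e` such that `f_i = A_i(x) u + B_i(x) v` with polynomials `A_i`, `B_i`
of degree at most `a`, `b`, such that for all `c` in `C` the vectors `A(c)`, `B(c)`, and also the vectors of
the coefficients of degree `a` of the `A_i` and of degree `b` of the `B_i`, are linearly independent
(`exists_reduced`, the minimal `a + b`; this is the theorem of Birkhoff and Grothendieck for the bundle of
rank two on `ℙ^1` generated by the `f_i`). Let `h(x, v / u) = 0` be the primitive irreducible equation, of
degree `δ` in `v / u`, and let `c'` be minimal such that the coefficient of `(v / u) ^ i` has degree at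
most `c' + i e` for all `i`. In `ℙ^1 × ℙ^(e + 1)`, with coordinates `(x_0 : x_1)` and `(y_0 : y_1 : ... : y_(e+1))`,
the ruled surface is the complete intersection of the `e` equations of bidegree `(1, 1)` saying
that `(y_1, ..., y_(e+1)) = s (x_0 ^ e, x_0 ^ (e-1) x_1, ..., x_1 ^ e)` (`exists_scroll`), and the equation
`∑ h_i(x_0, x_1) y_0 ^ (δ - i) s ^ i = 0` can be written as an equation of bidegree `(c', δ)`. The common zeros
are mapped to `ℙ^n` by the forms `A_i(x_0, x_1) y_0 + B_i(x_0, x_1) s`, of bidegree `(a, 1)`, which have no
common zeros and map all these points to `X` (`point`; the division lemma of Gauss in the four charts).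
So the theorem on images of complete intersections in products of projective spaces
(`Pool.Agent.W476.TP.main`, starting files) applies; its positivity condition is `c' > 0` for `e = 0`,
which holds because `v / u` is not constant. The dimension of the image is computed in `krull_le` (by the
transcendence degree) and `krull_ge` (by common zeros with hypersurfaces).
-/

set_option autoImplicit false

namespace Pool.Agent.Results.MP_db3ab1_ag.CurvesOnRuledSurfaces

open MvPolynomial

/-- Q1 holds, over every algebraically closed perfectoid field `C` with tilt `E`, for the irreducible curve
with generic point `(f_0 : ... : f_n)` if the `f_i` span a space of dimension at most two over a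
field `C(x)`. -/
theorem result {p : ℕ} [Fact p.Prime] {C E : Type} [NormedField C] [IsUltrametricDist C]
    [IsAlgClosed C] [Field E] [CharP E p] [IsAlgClosed E] (S : Pool.Agent.W476.TP.Sharp p C E)
    (hp0 : 0 < ‖(p : C)‖) (hp1 : ‖(p : C)‖ < 1)
    {L : Type} [Field L] [Algebra C L] (hL : Algebra.trdeg C L ≤ 1)
    {n : ℕ} {f : Fin (n + 1) → L} (hf : ∃ i j, Transcendental C (f i / f j))
    {x : L} (hx : Transcendental C x)
    (huv : ∃ u v : L, ∀ i, f i ∈ Submodule.span (IntermediateField.adjoin C {x}) ({u, v} : Set L))
    (Q : Finset (MvPolynomial (Fin (n + 1)) C))
    (hQ : ∀ P ∈ Q, (∃ k, P.IsHomogeneous k) ∧ aeval f P = 0) (ε : ℝ) (hε : 0 < ε) :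
    ∃ I : Ideal (MvPolynomial (Fin (n + 1)) E),
      (∀ P ∈ I, ∀ k, homogeneousComponent k P ∈ I) ∧
      ringKrullDim (MvPolynomial (Fin (n + 1)) E ⧸ I) = 2 ∧
      ∀ z : Fin (n + 1) → E, z ≠ 0 → (∀ P ∈ I, eval z P = 0) → ∀ P ∈ Q, ∀ k,
        P.IsHomogeneous k → ∃ i, ‖eval (fun j => S.sh (z j)) P‖ ≤ ε * ‖S.sh (z i)‖ ^ k :=
  Pool.Agent.Helper50R.curves S hp0 hp1 hL hx hf huv Q hQ ε hε

end Pool.Agent.Results.MP_db3ab1_ag.CurvesOnRuledSurfaces
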