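import Pool.Agent.Helper50R.Chart2

/-!
# Reduced representations of a vector of functions over `K[x]` (rank two)
-/

set_option autoImplicit false

namespace Pool.Agent.Helper50R

open Polynomial

section hom

variable {K L : Type} [Field K] [Field L] [Algebra K L] {n : ℕ}

/-- The vector `f` is a multiple of a vector of polynomials in `x`. -/
def RankOne (x : L) (f : Fin (n + 1) → L) : Prop :=
  ∃ (A : Fin (n + 1) → K[X]) (u : L), ∀ i, f i = phi K x (A i) * u

/-- The vector `f` is a combination of two functions with coefficients in `K[x]`. -/
structure Rep (x : L) (f : Fin (n + 1) → L) (a b : ℕ) (A B : Fin (n + 1) → K[X]) (u v : L) :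
    Prop where
  rep : ∀ i, f i = phi K x (A i) * u + phi K x (B i) * v
  degA : ∀ i, (A i).natDegree ≤ a
  degB : ∀ i, (B i).natDegree ≤ b

/-- Independence at all finite points. -/
def Fin1 (A B : Fin (n + 1) → K[X]) : Prop :=
  ∀ c s t : K, (∀ i, s * (A i).eval c + t * (B i).eval c = 0) → s = 0 ∧ t = 0

/-- Independence at infinity. -/
def Inf1 (a b : ℕ) (A B : Fin (n + 1) → K[X]) : Prop :=
  ∀ s t : K, (∀ i, s * (A i).coeff a + t * (B i).coeff b = 0) → s = 0 ∧ t = 0

theorem natDegree_div {p q : K[X]} {c : K} {N : ℕ} (h : p = (X - C c) * q)
    (hp : p.natDegree ≤ N + 1) : q.natDegree ≤ N := by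
  by_cases hq : q = 0
  · rw [hq, natDegree_zero]
    exact Nat.zero_le _
  · rw [h, natDegree_mul (X_sub_C_ne_zero c) hq, natDegree_X_sub_C] at hp
    omega

theorem eq_zero_of_div {p q : K[X]} {c : K} (h : p = (X - C c) * q)
    (hp : p.natDegree ≤ 0) : q = 0 := by
  by_contra hq
  rw [h, natDegree_mul (X_sub_C_ne_zero c) hq, natDegree_X_sub_C] at hp
  omega

theorem exists_div {p : K[X]} {c : K} (h : p.eval c = 0) : ∃ q, p = (X - C c) * q :=
  dvd_iff_isRoot.2 h

theorem exists_reduced {x : L} {f : Fin (n + 1) → L} (h1 : ¬ RankOne (K := K) x f) :
    ∀ (N a b : ℕ) (A B : Fin (n + 1) → K[X]) (u v : L), a + b ≤ N → Rep x f a b A B u v →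
      ∃ (a' b' : ℕ) (A' B' : Fin (n + 1) → K[X]) (u' v' : L), a' ≤ b' ∧
        Rep x f a' b' A' B' u' v' ∧ Fin1 A' B' ∧ Inf1 a' b' A' B' := by
  intro N
  induction N with
  | zero =>
    intro a b A B u v hN hR
    have ha : a = 0 := by omega
    have hb : b = 0 := by omega
    subst ha hb
    have hA : ∀ i, A i = C ((A i).coeff 0) := fun i => eq_C_of_natDegree_le_zero (hR.degA i)
    have hB : ∀ i, B i = C ((B i).coeff 0) := fun i => eq_C_of_natDegree_le_zero (hR.degB i)
    have key : ∀ s t : K, (∀ i, s * (A i).coeff 0 + t * (B i).coeff 0 = 0) → s = 0 ∧ t = 0 := by
      intro s t h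
      by_cases ht : t = 0
      · subst ht
        refine ⟨?_, rfl⟩
        by_contra hs
        apply h1
        refine ⟨B, v, fun i => ?_⟩
        have h2 := h i
        rw [zero_mul, add_zero] at h2
        have h3 : A i = 0 := by rw [hA i, (mul_eq_zero.1 h2).resolve_left hs, C_0]
        rw [hR.rep i, h3, map_zero, zero_mul, zero_add]
      · exfalso
        apply h1
        refine ⟨A, u - phi K x (C (s / t)) * v, fun i => ?_⟩
        have h2 : B i = - (C (s / t) * A i) := by
          rw [hA i, hB i, ← C_mul, ← C_neg]
          congr 1
          have := h i
          field_simp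
          linear_combination this
        rw [hR.rep i, h2, map_neg, map_mul]
        ring
    refine ⟨0, 0, A, B, u, v, le_rfl, hR, ?_, key⟩
    intro c s t h
    refine key s t fun i => ?_
    have h2 := h i
    rwa [hA i, hB i, eval_C, eval_C] at h2
  | succ N ih =>
    -- the case `a ≤ b`
    have main : ∀ (a b : ℕ) (A B : Fin (n + 1) → K[X]) (u v : L), a ≤ b → a + b ≤ N + 1 →
        Rep x f a b A B u v →
        ∃ (a' b' : ℕ) (A' B' : Fin (n + 1) → K[X]) (u' v' : L), a' ≤ b' ∧
          Rep x f a' b' A' B' u' v' ∧ Fin1 A' B' ∧ Inf1 a' b' A' B' := by
      intro a b A B u v hab hN hR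
      by_cases hF : Fin1 A B
      · by_cases hI : Inf1 a b A B
        · exact ⟨a, b, A, B, u, v, hab, hR, hF, hI⟩
        · unfold Inf1 at hI
          push Not at hI
          obtain ⟨s, t, h, hst⟩ := hI
          by_cases ht : t = 0
          · have hs : s ≠ 0 := fun hs => hst hs ht
            have hA : ∀ i, (A i).coeff a = 0 := by
              intro i
              have h2 := h i
              rw [ht, zero_mul, add_zero] at h2
              exact (mul_eq_zero.1 h2).resolve_left hs
            rcases Nat.eq_zero_or_pos a with ha | ha
            · exfalso
              apply h1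
              refine ⟨B, v, fun i => ?_⟩
              have h3 : A i = 0 := by
                have h4 := hA i
                have h5 := hR.degA i
                rw [ha] at h4 h5
                rw [eq_C_of_natDegree_le_zero h5, h4, C_0]
              rw [hR.rep i, h3, map_zero, zero_mul, zero_add]
            · refine ih (a - 1) b A B u v (by omega) ⟨hR.rep, fun i => ?_, hR.degB⟩
              have h3 : (A i).natDegree ≠ a ∨ A i = 0 := by
                by_contra h4
                push Not at h4
                obtain ⟨h5, h6⟩ := h4
                apply h6
                rw [← leadingCoeff_eq_zero, leadingCoeff, h5, hA i]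
              rcases h3 with h3 | h3
              · have := hR.degA i
                omega
              · rw [h3, natDegree_zero]
                exact Nat.zero_le _
          · set r : K := s / t with hr
            have hB : ∀ i, (B i).coeff b + r * (A i).coeff a = 0 := by
              intro i
              have h2 := h i
              rw [hr]
              field_simp
              linear_combination h2
            set B' : Fin (n + 1) → K[X] := fun i => B i + C r * X ^ (b - a) * A i with hB'
            have hco : ∀ i, (B' i).coeff b = 0 := by
              intro i
              rw [hB', coeff_add, mul_assoc, coeff_C_mul, coeff_X_pow_mul', if_pos (by omega),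
                Nat.sub_sub_self hab, hB i]
            have hdeg : ∀ i, (B' i).natDegree ≤ b := by
              intro i
              refine natDegree_add_le_of_degree_le (hR.degB i) ?_
              refine (natDegree_mul_le).trans ?_
              have h3 : (C r * X ^ (b - a) : K[X]).natDegree ≤ b - a := natDegree_C_mul_X_pow_le _ _
              have h4 := hR.degA i
              omega
            have hrep : ∀ i, f i = phi K x (A i) * (u - phi K x (C r * X ^ (b - a)) * v) +
                phi K x (B' i) * v := by
              intro i
              rw [hB', hR.rep i, map_add, map_mul (phi K x) (C r * X ^ (b - a))]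
              ring
            rcases Nat.eq_zero_or_pos b with hb | hb
            · exfalso
              apply h1
              refine ⟨A, u - phi K x (C r * X ^ (b - a)) * v, fun i => ?_⟩
              have h3 : B' i = 0 := by
                have h4 := hco i
                have h5 := hdeg i
                rw [hb] at h4 h5
                rw [eq_C_of_natDegree_le_zero h5, h4, C_0]
              rw [hrep i, h3, map_zero, zero_mul, add_zero]
            · refine ih a (b - 1) A B' _ v (by omega) ⟨hrep, hR.degA, fun i => ?_⟩
              have h3 : (B' i).natDegree ≠ b ∨ B' i = 0 := by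
                by_contra h4
                push Not at h4
                obtain ⟨h5, h6⟩ := h4
                apply h6
                rw [← leadingCoeff_eq_zero, leadingCoeff, h5, hco i]
              rcases h3 with h3 | h3
              · have := hdeg i
                omega
              · rw [h3, natDegree_zero]
                exact Nat.zero_le _
      · unfold Fin1 at hF
        push Not at hF
        obtain ⟨c, s, t, h, hst⟩ := hF
        by_cases ht : t = 0
        · have hs : s ≠ 0 := fun hs => hst hs ht
          have hA : ∀ i, (A i).eval c = 0 := by
            intro i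
            have h2 := h i
            rw [ht, zero_mul, add_zero] at h2
            exact (mul_eq_zero.1 h2).resolve_left hs
          choose Q hQ using fun i => exists_div (hA i)
          have hrep : ∀ i, f i = phi K x (Q i) * (phi K x (X - C c) * u) +
              phi K x (B i) * v := by
            intro i
            rw [hR.rep i, hQ i, map_mul]
            ring
          rcases Nat.eq_zero_or_pos a with ha | ha
          · exfalso
            apply h1
            refine ⟨B, v, fun i => ?_⟩
            have h3 : Q i = 0 := eq_zero_of_div (hQ i) (by
              have := hR.degA i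
              omega)
            rw [hrep i, h3, map_zero, zero_mul, zero_add]
          · exact ih (a - 1) b Q B _ v (by omega) ⟨hrep, fun i => natDegree_div (hQ i) (by
              have := hR.degA i
              omega), hR.degB⟩
        · set r : K := s / t with hr
          have hB : ∀ i, (B i + C r * A i).eval c = 0 := by
            intro i
            have h2 := h i
            rw [eval_add, eval_mul, eval_C, hr]
            field_simp
            linear_combination h2
          choose Q hQ using fun i => exists_div (hB i)
          have hdeg : ∀ i, (B i + C r * A i).natDegree ≤ b := by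
            intro i
            refine natDegree_add_le_of_degree_le (hR.degB i) ?_
            exact (natDegree_C_mul_le _ _).trans ((hR.degA i).trans hab)
          have hrep : ∀ i, f i = phi K x (A i) * (u - phi K x (C r) * v) +
              phi K x (Q i) * (phi K x (X - C c) * v) := by
            intro i
            have h3 : phi K x (Q i) * phi K x (X - C c) = phi K x (B i) +
                phi K x (C r) * phi K x (A i) := by
              rw [← map_mul, mul_comm (Q i), ← hQ i, map_add, map_mul]
            rw [hR.rep i]
            linear_combination (-v) * h3
          rcases Nat.eq_zero_or_pos b with hb | hb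
          · exfalso
            apply h1
            refine ⟨A, u - phi K x (C r) * v, fun i => ?_⟩
            have h3 : Q i = 0 := eq_zero_of_div (hQ i) (by
              have := hdeg i
              omega)
            rw [hrep i, h3, map_zero, zero_mul, add_zero]
          · exact ih a (b - 1) A Q _ _ (by omega) ⟨hrep, hR.degA, fun i =>
              natDegree_div (hQ i) (by
                have := hdeg i
                omega)⟩
    intro a b A B u v hN hR
    rcases le_total a b with hab | hab
    · exact main a b A B u v hab hN hR
    · exact main b a B A v u hab (by omega) ⟨fun i => by rw [hR.rep i, add_comm], hR.degB,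
        hR.degA⟩

theorem u_ne {x : L} {f : Fin (n + 1) → L} (h1 : ¬ RankOne (K := K) x f) {a b : ℕ}
    {A B : Fin (n + 1) → K[X]} {u v : L} (hR : Rep x f a b A B u v) : u ≠ 0 := by
  rintro rfl
  exact h1 ⟨B, v, fun i => by rw [hR.rep i, mul_zero, zero_add]⟩

theorem v_ne {x : L} {f : Fin (n + 1) → L} (h1 : ¬ RankOne (K := K) x f) {a b : ℕ}
    {A B : Fin (n + 1) → K[X]} {u v : L} (hR : Rep x f a b A B u v) : v ≠ 0 := by
  rintro rfl
  exact h1 ⟨A, u, fun i => by rw [hR.rep i, mul_zero, add_zero]⟩

theorem ratio_ne {x : L} {f : Fin (n + 1) → L} (h1 : ¬ RankOne (K := K) x f) {a b : ℕ}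
    {A B : Fin (n + 1) → K[X]} {u v : L} (hR : Rep x f a b A B u v) (c : K) :
    v / u ≠ algebraMap K L c := by
  intro h
  have hu := u_ne h1 hR
  apply h1
  refine ⟨fun i => A i + C c * B i, u, fun i => ?_⟩
  have h2 : v = algebraMap K L c * u := by rw [← h, div_mul_cancel₀ _ hu]
  rw [hR.rep i, h2, map_add, map_mul]
  have h3 : phi K x (C c) = algebraMap K L c := by rw [phi_apply, aeval_C]
  rw [h3]
  ring

end hom

end Pool.Agent.Helper50R
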